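import Pool.Agent.Lib.MP_b608a7_an.L2

set_option autoImplicit false

/-!
The two quadratic forms and the comparison inequalities.
-/

namespace Pool.Agent.GKW

open Finset MeasureTheory Set Polynomial
open scoped InnerProductSpace ComplexConjugate

/-- `cc = 1/√5` -/
noncomputable def cc : ℝ := s5⁻¹

lemma cc_pos : 0 < cc := inv_pos.mpr s5_pos

lemma cc_le_one : cc ≤ 1 := by
  unfold cc
  exact inv_le_one_of_one_le₀ (by linarith [s5_lb])

/-- multiplier `(1 - e^{-cu})/u` -/
noncomputable def gB : BM where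
  f u := (1 - Real.exp (-cc * u)) / u
  meas := by fun_prop
  C := cc
  bd u hu := by
    have h1 : 1 - Real.exp (-cc * u) ≤ cc * u := by
      have := Real.add_one_le_exp (-cc * u)
      linarith
    have h2 : 0 ≤ 1 - Real.exp (-cc * u) := by
      have : Real.exp (-cc * u) ≤ 1 := by
        rw [Real.exp_le_one_iff]
        have := mul_pos cc_pos hu
        linarith
      linarith
    rw [abs_of_nonneg (div_nonneg h2 hu.le), div_le_iff₀ hu]
    exact h1

/-- multiplier `1 - e^{-cu}` -/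
noncomputable def e1B : BM where
  f u := 1 - Real.exp (-cc * u)
  meas := by fun_prop
  C := 1
  bd u hu := by
    have h2 : Real.exp (-cc * u) ≤ 1 := by
      rw [Real.exp_le_one_iff]
      have := mul_pos cc_pos hu
      linarith
    have h3 := Real.exp_pos (-cc * u)
    rw [abs_of_nonneg (by linarith)]
    linarith

/-- multiplier `1/(1+cu)` -/
noncomputable def d1B : BM where
  f u := 1 / (1 + cc * u)
  meas := by fun_prop
  C := 1
  bd u hu := by
    have := mul_pos cc_pos hu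
    rw [abs_of_nonneg (by positivity), div_le_one (by positivity)]
    linarith

/-- multiplier `cu/(1+cu)` -/
noncomputable def d2B : BM where
  f u := cc * u / (1 + cc * u)
  meas := by fun_prop
  C := 1
  bd u hu := by
    have := mul_pos cc_pos hu
    rw [abs_of_nonneg (by positivity), div_le_one (by positivity)]
    linarith

/-- multiplier `c √u/(1+cu)` -/
noncomputable def d3B : BM where
  f u := cc * Real.sqrt u / (1 + cc * u)
  meas := by fun_prop
  C := 1
  bd u hu := by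
    have h1 := mul_pos cc_pos hu
    have h2 := cc_pos
    rw [abs_of_nonneg (by positivity), div_le_one (by positivity)]
    have h3 : Real.sqrt u ≤ 1 + u := by
      rw [Real.sqrt_le_left (by linarith)]
      nlinarith
    have h4 := cc_le_one
    nlinarith

/-- identity multiplier -/
noncomputable def oneB : BM where
  f _ := 1
  meas := measurable_const
  C := 1
  bd u hu := by simp

/-- the difference multiplier -/
noncomputable def DB : BM where
  f u := (1 - Real.exp (-cc * u)) / u - cc / (1 + cc * u)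
  meas := by fun_prop
  C := gB.C + cc
  bd u hu := by
    have h1 := gB.bd u hu
    have h3 : |cc / (1 + cc * u)| ≤ cc := by
      have := mul_pos cc_pos hu
      have := cc_pos
      rw [abs_of_nonneg (by positivity), div_le_iff₀ (by positivity)]
      nlinarith
    exact (abs_sub _ _).trans (add_le_add h1 h3)

lemma DB_pos : ∀ u > 0, 0 < DB.f u := by
  intro u hu
  have h1 := mul_pos cc_pos hu
  change 0 < (1 - Real.exp (-cc * u)) / u - cc / (1 + cc * u)
  rw [sub_pos, div_lt_div_iff₀ (by positivity) hu]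
  have h2 : cc * u + 1 < Real.exp (cc * u) := Real.add_one_lt_exp h1.ne'
  have h3 : Real.exp (-cc * u) * Real.exp (cc * u) = 1 := by
    rw [← Real.exp_add]; simp
  have h4 := Real.exp_pos (-cc * u)
  nlinarith

/-- squares of multipliers -/
noncomputable def sqB (a : BM) : BM where
  f u := (a.f u) ^ 2
  meas := a.meas.pow_const 2
  C := a.C ^ 2
  bd u hu := by
    have := a.bd u hu
    rw [abs_pow]
    exact pow_le_pow_left₀ (abs_nonneg _) this 2

/-- the quadratic form G -/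
noncomputable def GG (θ : HH) : ℝ := ∫ u, gB.f u * ‖θ u‖ ^ 2 ∂mu0

lemma inner_gB_self (θ : HH) : ⟪θ, mulOp gB θ⟫_ℂ = (GG θ : ℂ) := inner_mul_self gB θ

lemma gB_pos : ∀ u > 0, 0 < gB.f u := by
  intro u hu
  have h1 := mul_pos cc_pos hu
  change 0 < (1 - Real.exp (-cc * u)) / u
  apply div_pos _ hu
  have : Real.exp (-cc * u) < 1 := by
    rw [Real.exp_lt_one_iff]; linarith
  linarith

lemma GG_pos (θ : HH) (hθ : θ ≠ 0) : 0 < GG θ := quad_pos_of gB gB_pos θ hθ

lemma GG_lower (θ : HH) (hθ : θ ≠ 0) :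
    cc * ‖mulOp d1B θ‖ ^ 2 + ‖mulOp d3B θ‖ ^ 2 < GG θ := by
  have h := quad_pos_of DB DB_pos θ hθ
  have e : ∫ u, DB.f u * ‖θ u‖ ^ 2 ∂mu0 =
      GG θ - (cc * ‖mulOp d1B θ‖ ^ 2 + ‖mulOp d3B θ‖ ^ 2) := by
    rw [norm_sq_mulOp, norm_sq_mulOp]
    unfold GG
    rw [← integral_const_mul, ← integral_add, ← integral_sub]
    · apply integral_congr_ae
      filter_upwards [ae_pos] with u hu
      have h1 := mul_pos cc_pos hu
      change ((1 - Real.exp (-cc * u)) / u - cc / (1 + cc * u)) * ‖θ u‖ ^ 2 =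
        (1 - Real.exp (-cc * u)) / u * ‖θ u‖ ^ 2 -
          (cc * ((1 / (1 + cc * u)) ^ 2 * ‖θ u‖ ^ 2) +
            (cc * Real.sqrt u / (1 + cc * u)) ^ 2 * ‖θ u‖ ^ 2)
      have h2 : cc / (1 + cc * u) = cc * (1 / (1 + cc * u)) ^ 2 +
          (cc * Real.sqrt u / (1 + cc * u)) ^ 2 := by
        rw [div_pow, div_pow, mul_pow, Real.sq_sqrt hu.le]
        have : 1 + cc * u ≠ 0 := by positivity
        field_simp
      rw [h2]
      ring
    · exact integrable_quad gB θ
    · exact ((integrable_quad (sqB d1B) θ).const_mul cc).add (integrable_quad (sqB d3B) θ)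
    · exact (integrable_quad (sqB d1B) θ).const_mul cc
    · exact integrable_quad (sqB d3B) θ
  rw [e] at h
  linarith

lemma d1_add_d2 (θ : HH) : mulOp d1B θ + mulOp d2B θ = θ := by
  apply Lp.ext
  filter_upwards [coe_mulOp d1B θ, coe_mulOp d2B θ, Lp.coeFn_add (mulOp d1B θ) (mulOp d2B θ),
    ae_pos] with u h1 h2 h3 hu
  rw [h3, Pi.add_apply, h1, h2]
  have h5 := mul_pos cc_pos hu
  have h4 : d1B.f u + d2B.f u = 1 := by
    change 1 / (1 + cc * u) + cc * u / (1 + cc * u) = 1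
    rw [← add_div, div_self (by positivity)]
  rw [← add_mul, ← Complex.ofReal_add, h4]
  simp

lemma inner_Lam_d2 (m : ℕ) (θ : HH) :
    ⟪Lam m, mulOp d2B θ⟫_ℂ = ⟪om m, mulOp d3B θ⟫_ℂ := by
  unfold Lam om pv spv
  apply inner_vec_mul_congr
  intro u hu
  change (SP m).eval u * Real.exp (-(1 / 2) * u) * (cc * u / (1 + cc * u)) =
    Real.sqrt u * ((SP m).eval u * Real.exp (-(1 / 2) * u)) * (cc * Real.sqrt u / (1 + cc * u))
  have h2 : Real.sqrt u * Real.sqrt u = u := Real.mul_self_sqrt hu.le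
  have h5 := mul_pos cc_pos hu
  have h6 : 1 + cc * u ≠ 0 := by positivity
  rw [mul_div_assoc', mul_div_assoc']
  congr 1
  linear_combination (-(eval u (SP m) * Real.exp (-(1 / 2) * u) * cc)) * h2

lemma Bessel_lam (θ : HH) (M : ℕ) : ∑ m ∈ range M, ‖⟪lam m, θ⟫_ℂ‖ ^ 2 ≤ ‖θ‖ ^ 2 :=
  orthonormal_lam.sum_inner_products_le θ

lemma Bessel_on (θ : HH) (M : ℕ) : ∑ m ∈ range M, ‖⟪on m, θ⟫_ℂ‖ ^ 2 ≤ ‖θ‖ ^ 2 :=
  orthonormal_on.sum_inner_products_le θ

lemma norm_inner_on (θ : HH) (m : ℕ) :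
    ‖⟪on m, θ⟫_ℂ‖ ^ 2 = ‖⟪om m, θ⟫_ℂ‖ ^ 2 / ((m : ℝ) + 1) := by
  unfold on
  rw [inner_smul_left, Complex.conj_ofReal, norm_mul, Complex.norm_real, Real.norm_eq_abs,
    mul_pow, sq_abs, inv_pow, Real.sq_sqrt (by positivity)]
  ring

/-- finite form of the upper bound for `B` -/
theorem finite_bound (N : ℕ) (hN : 1 ≤ N) (θ : HH)
    (hS : ∀ m < N, Even (m + N) → TT m θ = 0) (k : ℕ) :
    ∑ m ∈ range (N + 2 * (k + 1) + 1), eps N m * (‖TT m θ‖ ^ 2 / (m + 1)) ≤
      cc * ‖mulOp d1B θ‖ ^ 2 + ‖mulOp d3B θ‖ ^ 2 := by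
  have key : ∀ m, TT m (mulOp d1B θ) + TT m (mulOp d2B θ) = TT m θ := by
    intro m
    rw [← TT_add, d1_add_d2]
  have h := seq_main N hN (fun m => TT m (mulOp d1B θ)) (fun m => TT m (mulOp d2B θ))
    (fun m hm he => by rw [key]; exact hS m hm he) k
  simp only [key] at h
  refine h.trans ?_
  have h1 : ∀ m, dd (fun m => TT m (mulOp d1B θ)) m = ‖⟪lam m, mulOp d1B θ⟫_ℂ‖ ^ 2 := by
    intro m
    cases m with
    | zero =>
      change ‖TT 0 (mulOp d1B θ)‖ ^ 2 = _
      unfold TT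
      rw [Lam_zero]
    | succ m =>
      change ‖TT (m + 1) (mulOp d1B θ) - TT m (mulOp d1B θ)‖ ^ 2 = _
      unfold TT
      rw [Lam_succ, inner_add_left, add_sub_cancel_left]
  have h2 : ∀ m, ‖TT m (mulOp d2B θ)‖ ^ 2 / ((m : ℝ) + 1) = ‖⟪on m, mulOp d3B θ⟫_ℂ‖ ^ 2 := by
    intro m
    rw [norm_inner_on]
    unfold TT
    rw [inner_Lam_d2]
  simp only [h1, h2]
  apply add_le_add
  · exact mul_le_mul_of_nonneg_left (Bessel_lam _ _) cc_pos.le
  · exact Bessel_on _ _

lemma abs_qq (m : ℕ) : |qq m| = rr ^ (m + 1) := by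
  unfold qq
  rw [abs_mul, abs_pow, abs_neg, abs_one, one_pow, one_mul, abs_of_pos (pow_pos rr_pos _)]

lemma rr_lt_one : rr < 1 := by linarith [rr_ub]

lemma summable_rr : Summable (fun m : ℕ => rr ^ (m + 1)) := by
  have := summable_geometric_of_lt_one rr_pos.le rr_lt_one
  exact (summable_nat_add_iff 1).mpr this

lemma summable_bquad (θ : HH) : Summable (fun m : ℕ => qq m * (‖TT m θ‖ ^ 2 / ((m : ℝ) + 1))) := by
  apply Summable.of_norm_bounded (g := fun m : ℕ => rr ^ (m + 1) * ‖θ‖ ^ 2)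
    (summable_rr.mul_right _)
  intro m
  rw [norm_mul, Real.norm_eq_abs, abs_qq, Real.norm_eq_abs, abs_of_nonneg (by positivity)]
  exact mul_le_mul_of_nonneg_left (norm_TT_sq_le m θ) (pow_nonneg rr_pos.le _)

/-- the quadratic form B -/
noncomputable def BB (θ : HH) : ℝ := ∑' m : ℕ, qq m * (‖TT m θ‖ ^ 2 / ((m : ℝ) + 1))

/-- **F2** -/
theorem F2 (N : ℕ) (hN : 1 ≤ N) (θ : HH) (hθ : θ ≠ 0)
    (hS : ∀ m < N, Even (m + N) → TT m θ = 0) :
    (-1) ^ N * (rr⁻¹) ^ N * BB θ < GG θ := by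
  refine lt_of_le_of_lt ?_ (GG_lower θ hθ)
  have h1 : HasSum (fun m : ℕ => eps N m * (‖TT m θ‖ ^ 2 / ((m : ℝ) + 1)))
      ((-1) ^ N * (rr⁻¹) ^ N * BB θ) := by
    have := (summable_bquad θ).hasSum.mul_left ((-1) ^ N * (rr⁻¹) ^ N)
    refine this.congr_fun ?_ |> fun h => h
    intro m
    unfold eps
    ring
  have h2 := h1.tendsto_sum_nat
  have h3 : Filter.Tendsto (fun k : ℕ => N + 2 * (k + 1) + 1) Filter.atTop Filter.atTop := by
    apply Filter.tendsto_atTop_mono (f := fun k : ℕ => k) _ Filter.tendsto_id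
    intro k
    change k ≤ _
    omega
  have h4 := h2.comp h3
  apply le_of_tendsto' h4
  intro k
  exact finite_bound N hN θ hS k

end Pool.Agent.GKW
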