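import Pool.Agent.Lib.MP_b608a7_an.Forms

set_option autoImplicit false

/-!
The upper bound for G on combinations of the `tau m`, the operator `bOp`, exponentials.
-/

namespace Pool.Agent.GKW

open Finset MeasureTheory Set Polynomial
open scoped InnerProductSpace ComplexConjugate

/-- `tau m` as a vector of the form `u S_m(u) e^{-u/2}/(m+1)` -/
lemma tau_eq (m : ℕ) : tau m = pv (Polynomial.C ((m : ℝ) + 1)⁻¹ * (X * SP m)) (1 / 2) half_pos' := by
  have h : lam m = lam (m + 1) +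
      pv (Polynomial.C ((m : ℝ) + 1)⁻¹ * (X * SP m)) (1 / 2) half_pos' := by
    unfold lam pv
    apply vec_add
    intro u _
    have h1 := ell_rel m u
    simp only [eval_mul, eval_C, eval_X]
    have h2 : (m : ℝ) + 1 ≠ 0 := by positivity
    have h3 : ((m : ℝ) + 1)⁻¹ * (u * eval u (SP m)) = eval u (ellP m) - eval u (ellP (m + 1)) := by
      rw [← h1, ← mul_assoc, inv_mul_cancel₀ h2, one_mul]
    rw [h3]
    ring
  unfold tau
  rw [h, add_sub_cancel_left]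

lemma inner_vec_mul_vec (a b : ℝ → ℝ) (ha : MemLp (fun u => (a u : ℂ)) 2 mu0)
    (hb : MemLp (fun u => (b u : ℂ)) 2 mu0) (m : BM) :
    ⟪vec a ha, mulOp m (vec b hb)⟫_ℂ = ((∫ u, a u * m.f u * b u ∂mu0 : ℝ) : ℂ) := by
  rw [inner_vec_mul, ← integral_complex_ofReal]
  apply integral_congr_ae
  filter_upwards [coe_vec b hb] with u h1
  rw [h1]
  push_cast
  ring

/-- scaled second family -/
noncomputable def om' (m : ℕ) : HH := ((((m : ℝ) + 1)⁻¹ : ℝ) : ℂ) • om m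

lemma om'_eq (m : ℕ) : om' m = spv (Polynomial.C ((m : ℝ) + 1)⁻¹ * SP m) (1 / 2) half_pos' := by
  unfold om' om spv
  symm
  apply vec_smul
  intro u _
  simp only [eval_mul, eval_C]
  ring

lemma inner_tau_g (m n : ℕ) : ⟪tau m, mulOp gB (tau n)⟫_ℂ = ⟪om' m, mulOp e1B (om' n)⟫_ℂ := by
  rw [tau_eq, tau_eq, om'_eq, om'_eq]
  unfold pv spv
  rw [inner_vec_mul_vec, inner_vec_mul_vec]
  congr 1
  apply integral_congr_ae
  filter_upwards [ae_pos] with u hu
  change _ * ((1 - Real.exp (-cc * u)) / u) * _ = _ * (1 - Real.exp (-cc * u)) * _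
  simp only [eval_mul, eval_C, eval_X]
  have h2 : Real.sqrt u * Real.sqrt u = u := Real.mul_self_sqrt hu.le
  have h3 : u ≠ 0 := hu.ne'
  have e1 : ∀ (a b c d E : ℝ), (a * (u * b) * E) * ((1 - Real.exp (-cc * u)) / u) *
      (c * (u * d) * E) = (Real.sqrt u * (a * b * E)) * (1 - Real.exp (-cc * u)) *
      (Real.sqrt u * (c * d * E)) := by
    intro a b c d E
    have : (Real.sqrt u * (a * b * E)) * (1 - Real.exp (-cc * u)) *
      (Real.sqrt u * (c * d * E)) = (Real.sqrt u * Real.sqrt u) * ((a * b * E) *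
        (1 - Real.exp (-cc * u)) * (c * d * E)) := by ring
    rw [this, h2]
    field_simp
  exact e1 _ _ _ _ _

/-- **F1** -/
theorem F1 (S : Finset ℕ) (x : ℕ → ℂ) :
    GG (∑ m ∈ S, x m • tau m) ≤ ∑ m ∈ S, ‖x m‖ ^ 2 / ((m : ℝ) + 1) := by
  have h1 : ⟪∑ m ∈ S, x m • tau m, mulOp gB (∑ m ∈ S, x m • tau m)⟫_ℂ =
      ⟪∑ m ∈ S, x m • om' m, mulOp e1B (∑ m ∈ S, x m • om' m)⟫_ℂ := by
    simp only [map_sum, map_smul, sum_inner, inner_sum, inner_smul_left, inner_smul_right,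
      inner_tau_g]
  rw [inner_gB_self, inner_mul_self] at h1
  have h2 : GG (∑ m ∈ S, x m • tau m) =
      ∫ u, e1B.f u * ‖(∑ m ∈ S, x m • om' m : HH) u‖ ^ 2 ∂mu0 := by
    exact_mod_cast h1
  rw [h2]
  refine (quad_le_norm_sq e1B ?_ _).trans ?_
  · intro u hu
    change 1 - Real.exp (-cc * u) ≤ 1
    have := Real.exp_pos (-cc * u)
    linarith
  · have h3 : ((‖∑ m ∈ S, x m • om' m‖ ^ 2 : ℝ) : ℂ) =
        ((∑ m ∈ S, ‖x m‖ ^ 2 / ((m : ℝ) + 1) : ℝ) : ℂ) := by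
      push_cast
      have h4 := inner_self_eq_norm_sq_to_K (𝕜 := ℂ) (∑ m ∈ S, x m • om' m)
      refine Eq.trans h4.symm ?_
      rw [sum_inner]
      apply Finset.sum_congr rfl
      intro m hm
      rw [inner_sum, Finset.sum_eq_single m]
      · unfold om'
        rw [inner_smul_left, inner_smul_right, inner_smul_left, inner_smul_right, inner_om,
          if_pos rfl, Complex.conj_ofReal]
        have h5 : ((m : ℂ) + 1) ≠ 0 := by exact_mod_cast Nat.succ_ne_zero m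
        have h6 : conj (x m) * x m = (‖x m‖ : ℂ) ^ 2 := by
          rw [conj_mul_self]; push_cast; ring
        rw [← h6]
        push_cast
        field_simp
      · intro n _ hn
        unfold om'
        rw [inner_smul_left, inner_smul_right, inner_smul_left, inner_smul_right, inner_om,
          if_neg (Ne.symm hn)]
        simp
      · intro h
        exact absurd hm h
    have h5 : ‖∑ m ∈ S, x m • om' m‖ ^ 2 = ∑ m ∈ S, ‖x m‖ ^ 2 / ((m : ℝ) + 1) := by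
      exact_mod_cast h3
    exact h5.le

/-! ### the operator `bOp` -/

/-- summand of `bOp` -/
noncomputable def bt (y : HH) (m : ℕ) : HH :=
  (((qq m / ((m : ℝ) + 1) : ℝ) : ℂ) * TT m y) • Lam m

lemma norm_TT_le (m : ℕ) (y : HH) : ‖TT m y‖ ≤ ‖Lam m‖ * ‖y‖ := norm_inner_le_norm _ _

lemma summable_bt (y : HH) : Summable (bt y) := by
  apply Summable.of_norm_bounded (g := fun m : ℕ => rr ^ (m + 1) * ‖y‖)
    (summable_rr.mul_right _)
  intro m
  unfold bt
  rw [norm_smul, norm_mul, Complex.norm_real, Real.norm_eq_abs, abs_div, abs_qq,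
    abs_of_pos (by positivity : (0 : ℝ) < (m : ℝ) + 1)]
  have h1 := norm_TT_le m y
  have h2 := norm_Lam_sq m
  have h0 : (0 : ℝ) < (m : ℝ) + 1 := by positivity
  have hr : 0 ≤ rr ^ (m + 1) := pow_nonneg rr_pos.le _
  calc rr ^ (m + 1) / ((m : ℝ) + 1) * ‖TT m y‖ * ‖Lam m‖
      ≤ rr ^ (m + 1) / ((m : ℝ) + 1) * (‖Lam m‖ * ‖y‖) * ‖Lam m‖ := by
        gcongr
    _ = rr ^ (m + 1) / ((m : ℝ) + 1) * (‖Lam m‖ ^ 2) * ‖y‖ := by ring
    _ = rr ^ (m + 1) * ‖y‖ := by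
        rw [h2]
        field_simp

lemma bt_add (x y : HH) (m : ℕ) : bt (x + y) m = bt x m + bt y m := by
  unfold bt
  rw [TT_add, mul_add, add_smul]

lemma bt_smul (r : ℂ) (y : HH) (m : ℕ) : bt (r • y) m = r • bt y m := by
  unfold bt
  rw [TT_smul, smul_smul]
  congr 1
  ring

/-- the operator of the form B -/
noncomputable def bOp : HH →ₗ[ℂ] HH where
  toFun y := ∑' m, bt y m
  map_add' x y := by
    simp only [bt_add]
    exact (summable_bt x).tsum_add (summable_bt y)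
  map_smul' r y := by
    simp only [bt_smul, RingHom.id_apply]
    exact (summable_bt y).tsum_const_smul r

lemma hasSum_inner_bOp (x y : HH) :
    HasSum (fun m => ((qq m / ((m : ℝ) + 1) : ℝ) : ℂ) * (conj (TT m x) * TT m y))
      ⟪x, bOp y⟫_ℂ := by
  have h1 : HasSum (bt y) (bOp y) := (summable_bt y).hasSum
  have h2 := h1.mapL (innerSL ℂ x)
  refine h2.congr_fun ?_ |> fun h => h
  intro m
  simp only [innerSL_apply_apply]
  unfold bt
  rw [inner_smul_right]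
  have h3 : conj (TT m x) = ⟪x, Lam m⟫_ℂ := by
    unfold TT
    rw [inner_conj_symm]
  rw [h3]
  ring

lemma inner_bOp_self (x : HH) : ⟪x, bOp x⟫_ℂ = (BB x : ℂ) := by
  have h1 := hasSum_inner_bOp x x
  have h2 : HasSum (fun m => ((qq m / ((m : ℝ) + 1) : ℝ) : ℂ) * (conj (TT m x) * TT m x))
      (BB x : ℂ) := by
    have h3 := Complex.hasSum_ofReal.mpr (summable_bquad x).hasSum
    refine h3.congr_fun ?_ |> fun h => h
    intro m
    rw [conj_mul_self]
    push_cast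
    ring
  exact h1.unique h2

lemma bOp_symm (x y : HH) : ⟪bOp x, y⟫_ℂ = ⟪x, bOp y⟫_ℂ := by
  have h1 := hasSum_inner_bOp x y
  have h2 := hasSum_inner_bOp y x
  have h3 := (Complex.hasSum_conj'.mpr h2 : _)
  have h4 : HasSum (fun m => ((qq m / ((m : ℝ) + 1) : ℝ) : ℂ) * (conj (TT m x) * TT m y))
      (conj ⟪y, bOp x⟫_ℂ) := by
    refine h3.congr_fun ?_ |> fun h => h
    intro m
    rw [map_mul, Complex.conj_ofReal, map_mul, Complex.conj_conj]
    ring
  rw [h1.unique h4, inner_conj_symm]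

lemma inner_tau_bOp (m : ℕ) (y : HH) :
    ⟪tau m, bOp y⟫_ℂ = ((qq m / ((m : ℝ) + 1) : ℝ) : ℂ) * TT m y := by
  have h1 := hasSum_inner_bOp (tau m) y
  have h2 := hasSum_ite_eq m (((qq m / ((m : ℝ) + 1) : ℝ) : ℂ) * TT m y)
  refine h1.unique (h2.congr_fun ?_ |> fun h => h)
  intro k
  rw [TT_tau]
  by_cases h : k = m
  · subst h; simp
  · simp [h]

/-! ### exponentials -/

lemma inner_lam_Psi (j : ℕ) (p : ℝ) (hp : 1 / 2 < p) :
    ⟪lam j, Psi p hp⟫_ℂ = (((1 - 1 / p) ^ j : ℝ) : ℂ) := by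
  have hp0 : 0 < p := by linarith
  unfold lam Psi pv
  rw [inner_vec_vec]
  congr 1
  have h1 := integral_ell_exp j hp0
  have h2 : ∫ u in Ioi (0 : ℝ), (ellP j).eval u * Real.exp (-(1 / 2) * u) *
      ((Polynomial.C p).eval u * Real.exp (-(p - 1 / 2) * u)) =
      p * ∫ u in Ioi (0 : ℝ), (ellP j).eval u * Real.exp (-p * u) := by
    rw [← integral_const_mul]
    congr 1
    ext u
    have h3 : Real.exp (-p * u) = Real.exp (-(1 / 2) * u) * Real.exp (-(p - 1 / 2) * u) := by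
      rw [← Real.exp_add]; ring_nf
    rw [h3, eval_C]
    ring
  rw [h2, h1]
  have h4 : 1 - 1 / p = (p - 1) / p := by field_simp
  rw [h4, div_pow, pow_succ]
  field_simp

lemma norm_Psi_sq (p : ℝ) (hp : 1 / 2 < p) : ‖Psi p hp‖ ^ 2 = p ^ 2 / (2 * p - 1) := by
  have hp0 : 0 < p := by linarith
  have h1 : ⟪Psi p hp, Psi p hp⟫_ℂ = ((p ^ 2 / (2 * p - 1) : ℝ) : ℂ) := by
    unfold Psi pv
    rw [inner_vec_vec]
    congr 1
    have h1 := integral_pow_exp 0 (p := 2 * p - 1) (by linarith)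
    have h2 : ∫ u in Ioi (0 : ℝ), (Polynomial.C p).eval u * Real.exp (-(p - 1 / 2) * u) *
      ((Polynomial.C p).eval u * Real.exp (-(p - 1 / 2) * u)) =
      p ^ 2 * ∫ u in Ioi (0 : ℝ), u ^ 0 * Real.exp (-(2 * p - 1) * u) := by
      rw [← integral_const_mul]
      congr 1
      ext u
      have h3 : Real.exp (-(2 * p - 1) * u) =
          Real.exp (-(p - 1 / 2) * u) * Real.exp (-(p - 1 / 2) * u) := by
        rw [← Real.exp_add]; ring_nf
      rw [h3, eval_C]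
      ring
    rw [h2, h1]
    simp
    ring
  rw [inner_self_eq_norm_sq_to_K] at h1
  have h3 : ((‖Psi p hp‖ ^ 2 : ℝ) : ℂ) = ((p ^ 2 / (2 * p - 1) : ℝ) : ℂ) := by
    rw [← h1]; push_cast; rfl
  exact_mod_cast h3

lemma abs_w_lt (p : ℝ) (hp : 1 / 2 < p) : |1 - 1 / p| < 1 := by
  have hp0 : 0 < p := by linarith
  have h1 : 1 / p < 2 := by
    rw [div_lt_iff₀ hp0]; linarith
  have h2 : 0 < 1 / p := by positivity
  rw [abs_lt]
  constructor <;> linarith

lemma sq_w (p : ℝ) (hp : 1 / 2 < p) : (1 - (1 - 1 / p) ^ 2)⁻¹ = p ^ 2 / (2 * p - 1) := by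
  have hp0 : 0 < p := by linarith
  have h1 : 1 - (1 - 1 / p) ^ 2 = (2 * p - 1) / p ^ 2 := by
    field_simp
    ring
  rw [h1, inv_div]

lemma norm_Psi_sub (p : ℝ) (hp : 1 / 2 < p) (n : ℕ) :
    ‖Psi p hp - ∑ j ∈ range n, (((1 - 1 / p) ^ j : ℝ) : ℂ) • lam j‖ ^ 2 =
      p ^ 2 / (2 * p - 1) - ∑ j ∈ range n, ((1 - 1 / p) ^ 2) ^ j := by
  set S : HH := ∑ j ∈ range n, (((1 - 1 / p) ^ j : ℝ) : ℂ) • lam j with hS
  have h1 : ⟪S, Psi p hp⟫_ℂ = ((∑ j ∈ range n, ((1 - 1 / p) ^ 2) ^ j : ℝ) : ℂ) := by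
    rw [hS, sum_inner, Complex.ofReal_sum]
    apply Finset.sum_congr rfl
    intro j _
    rw [inner_smul_left, inner_lam_Psi, Complex.conj_ofReal, ← Complex.ofReal_mul]
    congr 1
    rw [← mul_pow, ← sq]
  have h2 : ⟪S, S⟫_ℂ = ((∑ j ∈ range n, ((1 - 1 / p) ^ 2) ^ j : ℝ) : ℂ) := by
    rw [hS, orthonormal_lam.inner_sum, Complex.ofReal_sum]
    apply Finset.sum_congr rfl
    intro j _
    rw [Complex.conj_ofReal, ← Complex.ofReal_mul]
    congr 1
    rw [← mul_pow, ← sq]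
  have h3 : ‖S‖ ^ 2 = ∑ j ∈ range n, ((1 - 1 / p) ^ 2) ^ j := by
    rw [inner_self_eq_norm_sq_to_K] at h2
    have h4 : ((‖S‖ ^ 2 : ℝ) : ℂ) = ((∑ j ∈ range n, ((1 - 1 / p) ^ 2) ^ j : ℝ) : ℂ) := by
      rw [← h2]; push_cast; rfl
    exact_mod_cast h4
  rw [norm_sub_sq (𝕜 := ℂ), norm_Psi_sq, h3]
  have h5 : RCLike.re ⟪Psi p hp, S⟫_ℂ = ∑ j ∈ range n, ((1 - 1 / p) ^ 2) ^ j := by
    rw [inner_re_symm, h1]
    exact Complex.ofReal_re _
  rw [h5]
  ring

lemma tendsto_Psi (p : ℝ) (hp : 1 / 2 < p) :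
    Filter.Tendsto (fun n : ℕ => ∑ j ∈ range n, (((1 - 1 / p) ^ j : ℝ) : ℂ) • lam j)
      Filter.atTop (nhds (Psi p hp)) := by
  rw [tendsto_iff_norm_sub_tendsto_zero]
  have h1 : Filter.Tendsto (fun n : ℕ => ∑ j ∈ range n, ((1 - 1 / p) ^ 2) ^ j) Filter.atTop
      (nhds (p ^ 2 / (2 * p - 1))) := by
    rw [← sq_w p hp]
    apply HasSum.tendsto_sum_nat
    apply hasSum_geometric_of_lt_one (by positivity)
    rw [← sq_abs]
    have := abs_w_lt p hp
    have := abs_nonneg (1 - 1 / p)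
    nlinarith
  have h2 : Filter.Tendsto (fun n : ℕ =>
      ‖∑ j ∈ range n, (((1 - 1 / p) ^ j : ℝ) : ℂ) • lam j - Psi p hp‖ ^ 2) Filter.atTop
      (nhds 0) := by
    have h3 := h1.const_sub (p ^ 2 / (2 * p - 1))
    rw [sub_self] at h3
    refine h3.congr ?_
    intro n
    rw [← norm_Psi_sub, norm_sub_rev]
  have h4 := (Real.continuous_sqrt.tendsto 0).comp h2
  rw [Real.sqrt_zero] at h4
  refine h4.congr ?_
  intro n
  simp [Real.sqrt_sq (norm_nonneg _)]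

lemma norm_inner_lam_le (j : ℕ) (η : HH) : ‖⟪lam j, η⟫_ℂ‖ ≤ ‖η‖ := by
  have := norm_inner_le_norm (𝕜 := ℂ) (lam j) η
  rwa [orthonormal_lam.1 j, one_mul] at this

theorem hasSum_Psi (p : ℝ) (hp : 1 / 2 < p) (η : HH) :
    HasSum (fun j : ℕ => (((1 - 1 / p : ℝ)) : ℂ) ^ j * ⟪lam j, η⟫_ℂ) ⟪Psi p hp, η⟫_ℂ := by
  have h1 : Summable (fun j : ℕ => (((1 - 1 / p : ℝ)) : ℂ) ^ j * ⟪lam j, η⟫_ℂ) := by
    apply Summable.of_norm_bounded (g := fun j : ℕ => |1 - 1 / p| ^ j * ‖η‖)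
    · exact (summable_geometric_of_lt_one (abs_nonneg _) (abs_w_lt p hp)).mul_right _
    · intro j
      rw [norm_mul, norm_pow, Complex.norm_real, Real.norm_eq_abs]
      exact mul_le_mul_of_nonneg_left (norm_inner_lam_le j η) (by positivity)
  have h2 := h1.hasSum.tendsto_sum_nat
  have h3 := (tendsto_Psi p hp).inner (𝕜 := ℂ) (tendsto_const_nhds (x := η))
  have h4 : Filter.Tendsto (fun n : ℕ => ∑ j ∈ range n,
      (((1 - 1 / p : ℝ)) : ℂ) ^ j * ⟪lam j, η⟫_ℂ) Filter.atTop (nhds ⟪Psi p hp, η⟫_ℂ) := by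
    refine h3.congr ?_
    intro n
    rw [sum_inner]
    apply Finset.sum_congr rfl
    intro j _
    rw [inner_smul_left]
    congr 1
    rw [Complex.conj_ofReal]
    push_cast
    rfl
  rw [tendsto_nhds_unique h4 h2]
  exact h1.hasSum

/-- shift relation for exponentials -/
lemma inner_Psi_e1 (p : ℝ) (hp : 1 / 2 < p) (hp' : 1 / 2 < p + cc) (η : HH) :
    ⟪Psi p hp, mulOp e1B η⟫_ℂ =
      ⟪Psi p hp, η⟫_ℂ - ((p / (p + cc) : ℝ) : ℂ) * ⟪Psi (p + cc) hp', η⟫_ℂ := by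
  have hpc : p + cc ≠ 0 := by linarith
  have h0 : mulOp oneB η = η := by
    apply Lp.ext
    filter_upwards [coe_mulOp oneB η] with u h
    rw [h]
    change ((1 : ℝ) : ℂ) * η u = η u
    simp
  have h1 : Psi p hp = pv (Polynomial.C p) (p - 1 / 2) (by linarith) := rfl
  -- e^{-cu} Psi_p = (p/(p+c)) Psi_{p+c}
  have h2 : ⟪Psi p hp, mulOp e1B η⟫_ℂ + ((p / (p + cc) : ℝ) : ℂ) * ⟪Psi (p + cc) hp', η⟫_ℂ =
      ⟪Psi p hp, η⟫_ℂ := by
    have h3 : ((p / (p + cc) : ℝ) : ℂ) * ⟪Psi (p + cc) hp', η⟫_ℂ =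
        ⟪((p / (p + cc) : ℝ) : ℂ) • Psi (p + cc) hp', η⟫_ℂ := by
      rw [inner_smul_left, Complex.conj_ofReal]
    have h4 : ((p / (p + cc) : ℝ) : ℂ) • Psi (p + cc) hp' =
        pv (Polynomial.C p) (p + cc - 1 / 2) (by linarith) := by
      unfold Psi pv
      symm
      apply vec_smul
      intro u _
      rw [eval_C, eval_C]
      field_simp
    rw [h3, h4, ← mulOp_symm, ← inner_add_left]
    congr 1
    unfold Psi pv
    apply Lp.ext
    filter_upwards [coe_mulOp e1B (vec _ (memLp_poly (Polynomial.C p)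
        (by linarith : 0 < p - 1 / 2))),
      coe_vec _ (memLp_poly (Polynomial.C p) (by linarith : 0 < p - 1 / 2)),
      coe_vec _ (memLp_poly (Polynomial.C p) (by linarith : 0 < p + cc - 1 / 2)),
      Lp.coeFn_add (mulOp e1B (vec _ (memLp_poly (Polynomial.C p)
        (by linarith : 0 < p - 1 / 2)))) (vec _ (memLp_poly (Polynomial.C p)
          (by linarith : 0 < p + cc - 1 / 2)))] with u a1 a2 a3 a4
    rw [a4, Pi.add_apply, a1, a2, a3]
    change ((1 - Real.exp (-cc * u) : ℝ) : ℂ) * _ + _ = _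
    rw [← Complex.ofReal_mul, ← Complex.ofReal_add]
    congr 1
    have h5 : Real.exp (-(p + cc - 1 / 2) * u) =
        Real.exp (-cc * u) * Real.exp (-(p - 1 / 2) * u) := by
      rw [← Real.exp_add]; ring_nf
    rw [h5]
    ring
  rw [← h2]
  ring

end Pool.Agent.GKW
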