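import Mathlib

set_option autoImplicit false

/-!
Laguerre polynomials: generating integrals, orthogonality, and the relation
`(m+1)(L_m - L_{m+1}) = u (L_0 + ... + L_m)`.
-/

namespace Pool.Agent.GKW

open Finset MeasureTheory Set Polynomial

lemma int_pow_exp (k : ℕ) {p : ℝ} (hp : 0 < p) :
    IntegrableOn (fun u : ℝ => u ^ k * Real.exp (-p * u)) (Ioi 0) := by
  have h := integrableOn_rpow_mul_exp_neg_mul_rpow (p := 1) (s := (k : ℝ)) (b := p)
    (by have : (0 : ℝ) ≤ k := Nat.cast_nonneg k
        linarith) one_pos hp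
  refine h.congr_fun (fun x _ => ?_) measurableSet_Ioi
  simp [Real.rpow_natCast]

lemma integral_pow_exp (k : ℕ) {p : ℝ} (hp : 0 < p) :
    ∫ u in Ioi (0 : ℝ), u ^ k * Real.exp (-p * u) = (k.factorial : ℝ) / p ^ (k + 1) := by
  have h := Real.integral_rpow_mul_exp_neg_mul_Ioi (a := (k : ℝ) + 1) (r := p) (by positivity) hp
  rw [Real.Gamma_nat_eq_factorial] at h
  have e : ∫ u in Ioi (0 : ℝ), u ^ k * Real.exp (-p * u) =
      ∫ (t : ℝ) in Ioi 0, t ^ ((k : ℝ) + 1 - 1) * Real.exp (-(p * t)) := by
    apply setIntegral_congr_fun measurableSet_Ioi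
    intro x _
    simp [Real.rpow_natCast]
  rw [e, h]
  have h2 : (1 / p) ^ ((k : ℝ) + 1) = (1 / p) ^ (k + 1) := by
    rw [← Real.rpow_natCast]; push_cast; rfl
  rw [h2, one_div, inv_pow]
  field_simp

lemma int_poly (P : ℝ[X]) {p : ℝ} (hp : 0 < p) :
    IntegrableOn (fun u : ℝ => P.eval u * Real.exp (-p * u)) (Ioi 0) := by
  induction P using Polynomial.induction_on' with
  | add P Q hP hQ =>
    have := hP.add hQ
    refine this.congr (Filter.Eventually.of_forall fun x => ?_)
    simp [add_mul]
  | monomial n a =>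
    have := (int_pow_exp n hp).const_mul a
    refine this.congr (Filter.Eventually.of_forall fun x => ?_)
    simp [mul_assoc]

/-- the Laguerre polynomials -/
noncomputable def ellP (j : ℕ) : ℝ[X] :=
  ∑ k ∈ range (j + 1), Polynomial.C ((-1) ^ k * (j.choose k : ℝ) / (k.factorial : ℝ)) * X ^ k

lemma ellP_coeff (j k : ℕ) :
    (ellP j).coeff k = (-1) ^ k * (j.choose k : ℝ) / (k.factorial : ℝ) := by
  unfold ellP
  rw [finsetSum_coeff]
  simp only [coeff_C_mul, coeff_X_pow, mul_ite, mul_one, mul_zero]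
  by_cases hk : k < j + 1
  · rw [Finset.sum_eq_single k]
    · simp
    · intro b _ hb
      simp [hb.symm]
    · intro h
      exact absurd (Finset.mem_range.mpr hk) h
  · rw [Finset.sum_eq_zero]
    · rw [Nat.choose_eq_zero_of_lt (by omega)]
      simp
    · intro b hb
      have : b < j + 1 := Finset.mem_range.mp hb
      have : k ≠ b := by omega
      simp [this]

/-- partial sums of Laguerre polynomials -/
noncomputable def SP (m : ℕ) : ℝ[X] := ∑ j ∈ range (m + 1), ellP j

lemma SP_coeff (m k : ℕ) :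
    (SP m).coeff k = (-1) ^ k * ((m + 1).choose (k + 1) : ℝ) / (k.factorial : ℝ) := by
  unfold SP
  rw [finsetSum_coeff]
  simp only [ellP_coeff]
  rw [← Finset.sum_div, ← Finset.mul_sum]
  congr 2
  rw [← Nat.cast_sum]
  congr 1
  induction m with
  | zero =>
    rw [Finset.sum_range_one, Nat.choose_succ_succ 0 k]
    simp
  | succ m ih =>
    rw [Finset.sum_range_succ, ih, Nat.choose_succ_succ (m + 1) k]
    ring

lemma ellP_rel (m : ℕ) :
    Polynomial.C ((m : ℝ) + 1) * (ellP m - ellP (m + 1)) = X * SP m := by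
  ext k
  rw [coeff_C_mul, coeff_sub, ellP_coeff, ellP_coeff]
  cases k with
  | zero => simp
  | succ k =>
    rw [coeff_X_mul, SP_coeff]
    have h1 : ((m + 1).choose (k + 1) : ℝ) = (m.choose k : ℝ) + (m.choose (k + 1) : ℝ) := by
      rw [Nat.choose_succ_succ]; push_cast; ring
    have h2 : ((m : ℝ) + 1) * (m.choose k : ℝ) = ((m + 1).choose (k + 1) : ℝ) * ((k : ℝ) + 1) := by
      have := Nat.add_one_mul_choose_eq m k
      exact_mod_cast this
    have h3 : ((k + 1).factorial : ℝ) = ((k : ℝ) + 1) * (k.factorial : ℝ) := by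
      rw [Nat.factorial_succ]; push_cast; ring
    have h4 : (k.factorial : ℝ) ≠ 0 := by positivity
    have h5 : (k : ℝ) + 1 ≠ 0 := by positivity
    rw [h3]
    rw [eq_comm] at h2
    have e1 : ((m + 1).choose (k + 1) : ℝ) = ((m : ℝ) + 1) * (m.choose k : ℝ) / ((k : ℝ) + 1) := by
      rw [eq_div_iff h5]; exact h2
    have e2 : (m.choose (k + 1) : ℝ) - ((m + 1).choose (k + 1) : ℝ) = - (m.choose k : ℝ) := by
      rw [h1]; ring
    calc ((m : ℝ) + 1) * ((-1) ^ (k + 1) * (m.choose (k + 1) : ℝ) /
          (((k : ℝ) + 1) * (k.factorial : ℝ)) -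
          (-1) ^ (k + 1) * ((m + 1).choose (k + 1) : ℝ) / (((k : ℝ) + 1) * (k.factorial : ℝ)))
        = ((m : ℝ) + 1) * (-1) ^ (k + 1) * ((m.choose (k + 1) : ℝ) - ((m + 1).choose (k + 1) : ℝ))
          / (((k : ℝ) + 1) * (k.factorial : ℝ)) := by ring
      _ = ((m : ℝ) + 1) * (-1) ^ k * (m.choose k : ℝ) / (((k : ℝ) + 1) * (k.factorial : ℝ)) := by
          rw [e2]; ring
      _ = _ := by
          rw [e1]
          field_simp

/-- evaluated relation -/
lemma ell_rel (m : ℕ) (u : ℝ) :
    ((m : ℝ) + 1) * ((ellP m).eval u - (ellP (m + 1)).eval u) = u * (SP m).eval u := by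
  have := congrArg (Polynomial.eval u) (ellP_rel m)
  simpa using this

lemma SP_succ (m : ℕ) : SP (m + 1) = SP m + ellP (m + 1) := by
  unfold SP
  rw [Finset.sum_range_succ]

lemma integral_ell_exp (j : ℕ) {p : ℝ} (hp : 0 < p) :
    ∫ u in Ioi (0 : ℝ), (ellP j).eval u * Real.exp (-p * u) = (p - 1) ^ j / p ^ (j + 1) := by
  have e1 : ∀ u : ℝ, (ellP j).eval u * Real.exp (-p * u) =
      ∑ k ∈ range (j + 1), ((-1) ^ k * (j.choose k : ℝ) / (k.factorial : ℝ)) *
        (u ^ k * Real.exp (-p * u)) := by
    intro u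
    unfold ellP
    rw [eval_finsetSum, Finset.sum_mul]
    apply Finset.sum_congr rfl
    intro k _
    simp only [eval_mul, eval_C, eval_pow, eval_X]
    ring
  simp_rw [e1]
  rw [integral_finsetSum]
  · simp_rw [integral_const_mul, integral_pow_exp _ hp]
    have e2 : (p - 1) ^ j = ∑ k ∈ range (j + 1), (-1) ^ k * p ^ (j - k) * (j.choose k : ℝ) := by
      rw [sub_eq_neg_add, add_pow]
    rw [e2, Finset.sum_div]
    apply Finset.sum_congr rfl
    intro k hk
    have hk' : k ≤ j := Nat.lt_succ_iff.mp (Finset.mem_range.mp hk)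
    obtain ⟨i, rfl⟩ := Nat.exists_eq_add_of_le hk'
    have h4 : (k.factorial : ℝ) ≠ 0 := by positivity
    have h5 : p ≠ 0 := hp.ne'
    rw [Nat.add_sub_cancel_left]
    field_simp
    ring
  · intro k _
    exact (int_pow_exp k hp).const_mul _

/-- the Gram matrix of the Laguerre polynomials -/
noncomputable def gram (P Q : ℝ[X]) : ℝ := ∫ u in Ioi (0 : ℝ), (P * Q).eval u * Real.exp (-1 * u)

lemma gram_comm (P Q : ℝ[X]) : gram P Q = gram Q P := by
  unfold gram; rw [mul_comm]

lemma gram_add (P Q R : ℝ[X]) : gram (P + Q) R = gram P R + gram Q R := by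
  unfold gram
  rw [← integral_add (int_poly _ one_pos) (int_poly _ one_pos)]
  congr 1
  ext u
  simp only [add_mul, eval_add]

lemma gram_C_mul (a : ℝ) (P R : ℝ[X]) : gram (Polynomial.C a * P) R = a * gram P R := by
  unfold gram
  rw [← integral_const_mul]
  congr 1
  ext u
  simp only [mul_assoc, eval_mul, eval_C]

lemma gram_sub (P Q R : ℝ[X]) : gram (P - Q) R = gram P R - gram Q R := by
  have := gram_add (P - Q) Q R
  rw [sub_add_cancel] at this
  linarith

lemma gram_X (P Q : ℝ[X]) : gram (X * P) Q = gram P (X * Q) := by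
  unfold gram
  congr 1
  ext u
  congr 2
  ring

lemma X_ell_zero : X * ellP 0 = Polynomial.C 1 * (ellP 0 - ellP 1) := by
  have := ellP_rel 0
  unfold SP at this
  simp only [Nat.cast_zero, zero_add, Finset.sum_range_one] at this
  exact this.symm

lemma X_ell_succ (j : ℕ) : X * ellP (j + 1) =
    Polynomial.C ((j : ℝ) + 2) * (ellP (j + 1) - ellP (j + 2)) -
      Polynomial.C ((j : ℝ) + 1) * (ellP j - ellP (j + 1)) := by
  have h1 := ellP_rel (j + 1)
  have h2 := ellP_rel j
  rw [SP_succ, mul_add] at h1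
  push_cast at h1
  rw [show (j : ℝ) + 2 = (j : ℝ) + 1 + 1 by ring]
  rw [show j + 2 = j + 1 + 1 by ring, h1, h2]
  ring

lemma ellP_zero : ellP 0 = 1 := by
  unfold ellP
  simp

lemma gram_zero (k : ℕ) : gram (ellP 0) (ellP k) = if 0 = k then 1 else 0 := by
  unfold gram
  rw [ellP_zero, one_mul, integral_ell_exp k one_pos]
  cases k with
  | zero => simp
  | succ k => simp

lemma gram_X_ell (j : ℕ) (R : ℝ[X]) : gram (X * ellP j) R =
    ((j : ℝ) + 1) * (gram (ellP j) R - gram (ellP (j + 1)) R) -
      (j : ℝ) * (gram (ellP (j - 1)) R - gram (ellP j) R) := by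
  cases j with
  | zero =>
    rw [X_ell_zero, gram_C_mul, gram_sub]
    simp
  | succ j =>
    rw [X_ell_succ, gram_sub, gram_C_mul, gram_C_mul, gram_sub, gram_sub]
    simp only [Nat.add_sub_cancel]
    push_cast
    ring_nf

theorem gram_ell (j : ℕ) : ∀ k : ℕ, gram (ellP j) (ellP k) = if j = k then 1 else 0 := by
  induction j using Nat.strong_induction_on with
  | _ j ih =>
    cases j with
    | zero => exact gram_zero
    | succ j =>
      intro k
      have hs : gram (X * ellP j) (ellP k) = gram (X * ellP k) (ellP j) := by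
        rw [gram_X, gram_comm]
      rw [gram_X_ell, gram_X_ell] at hs
      rw [gram_comm (ellP k) (ellP j), gram_comm (ellP (k + 1)) (ellP j),
        gram_comm (ellP (k - 1)) (ellP j)] at hs
      rw [ih j (by omega) k, ih j (by omega) (k + 1), ih j (by omega) (k - 1)] at hs
      have hj : (j : ℝ) + 1 ≠ 0 := by positivity
      have h3 : (j : ℝ) * gram (ellP (j - 1)) (ellP k) = (j : ℝ) * (if j - 1 = k then 1 else 0) := by
        rcases Nat.eq_zero_or_pos j with h0 | h0
        · subst h0; simp
        · rw [ih (j - 1) (by omega) k]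
      have h4 : ((j : ℝ) + 1) * gram (ellP (j + 1)) (ellP k) =
          ((j : ℝ) + 1) * (if j = k then 1 else 0) -
          (j : ℝ) * (if j - 1 = k then 1 else 0) + (j : ℝ) * (if j = k then 1 else 0) -
          ((k : ℝ) + 1) * ((if j = k then 1 else 0) - (if j = k + 1 then 1 else 0)) +
          (k : ℝ) * ((if j = k - 1 then 1 else 0) - (if j = k then 1 else 0)) := by
        linarith
      apply mul_left_cancel₀ hj
      rw [h4]
      rcases Nat.lt_trichotomy j k with h | h | h
      · -- j < k
        by_cases hk : j + 1 = k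
        · subst hk
          have a1 : j ≠ j + 1 := by omega
          have a2 : j - 1 ≠ j + 1 := by omega
          have a3 : j ≠ j + 1 + 1 := by omega
          simp [a2, a3]
        · have a1 : j ≠ k := by omega
          have a2 : j - 1 ≠ k := by omega
          have a3 : j ≠ k + 1 := by omega
          have a4 : j ≠ k - 1 := by omega
          simp [a1, a2, a3, a4, hk]
      · subst h
        rcases Nat.eq_zero_or_pos j with h0 | h0
        · subst h0; simp
        · have a2 : j - 1 ≠ j := by omega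
          have a4 : j ≠ j - 1 := by omega
          simp [a2, a4]
      · -- k < j
        by_cases hk : j = k + 1
        · subst hk
          have a1 : k + 1 ≠ k := by omega
          have a4 : k + 1 ≠ k - 1 := by omega
          have a5 : k + 1 + 1 ≠ k := by omega
          simp [a4, a5]
        · have a1 : j ≠ k := by omega
          have a2 : j - 1 ≠ k := by omega
          have a3 : j ≠ k + 1 := by omega
          have a4 : j ≠ k - 1 := by omega
          have a5 : j + 1 ≠ k := by omega
          simp [a1, a2, a4, a5, hk]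

lemma gram_sum_left (m : ℕ) (R : ℝ[X]) :
    gram (SP m) R = ∑ j ∈ range (m + 1), gram (ellP j) R := by
  induction m with
  | zero => unfold SP; simp
  | succ m ih => rw [SP_succ, gram_add, ih, Finset.sum_range_succ _ (m + 1)]

lemma gram_SP_ell (m k : ℕ) : gram (SP m) (ellP k) = if k ≤ m then 1 else 0 := by
  rw [gram_sum_left]
  simp only [gram_ell]
  by_cases h : k ≤ m
  · simp [h]
  · simp [h]

/-- `∫ u S_m S_n e^{-u} = (m+1) δ_{mn}` -/
theorem gram_XSP (m n : ℕ) : gram (X * SP m) (SP n) = if m = n then (m : ℝ) + 1 else 0 := by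
  wlog h : m ≤ n with H
  · rw [gram_X, gram_comm, H n m (by omega)]
    by_cases h2 : n = m
    · subst h2; simp
    · simp [h2, Ne.symm h2]
  · rw [← ellP_rel, gram_C_mul, gram_sub, gram_comm (ellP m), gram_comm (ellP (m + 1)),
      gram_SP_ell, gram_SP_ell]
    by_cases h2 : m = n
    · subst h2; simp
    · have h3 : m + 1 ≤ n := by omega
      simp [h, h2, h3]

end Pool.Agent.GKW
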