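import Pool.Agent.Lib.MP_b608a7_an.Seq
import Pool.Agent.Lib.MP_b608a7_an.Laguerre

set_option autoImplicit false

/-!
The Hilbert space `L²(0,∞)`, multiplication operators, the Laguerre family.
-/

namespace Pool.Agent.GKW

open Finset MeasureTheory Set Polynomial
open scoped InnerProductSpace ComplexConjugate

/-- Lebesgue measure on `(0,∞)` -/
noncomputable def mu0 : Measure ℝ := volume.restrict (Ioi (0 : ℝ))

/-- `L²(0,∞)` -/
noncomputable abbrev HH := Lp ℂ 2 mu0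

/-- bounded measurable multiplier -/
structure BM where
  f : ℝ → ℝ
  meas : Measurable f
  C : ℝ
  bd : ∀ u > 0, |f u| ≤ C

lemma ae_pos : ∀ᵐ u ∂mu0, (0 : ℝ) < u := by
  unfold mu0
  exact ae_restrict_mem measurableSet_Ioi

lemma memLp_mul (a : BM) {h : ℝ → ℂ} (hh : MemLp h 2 mu0) :
    MemLp (fun u => (a.f u : ℂ) * h u) 2 mu0 := by
  refine MemLp.of_le_mul (c := a.C) hh ?_ ?_
  · exact ((Complex.measurable_ofReal.comp a.meas).aestronglyMeasurable).mul hh.1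
  · filter_upwards [ae_pos] with u hu
    rw [norm_mul, Complex.norm_real, Real.norm_eq_abs]
    exact mul_le_mul_of_nonneg_right (a.bd u hu) (norm_nonneg _)

/-- multiplication operator -/
noncomputable def mulOp (a : BM) : HH →ₗ[ℂ] HH where
  toFun θ := (memLp_mul a (Lp.memLp θ)).toLp
  map_add' x y := by
    rw [← MemLp.toLp_add]
    apply MemLp.toLp_congr
    filter_upwards [Lp.coeFn_add x y] with u hu
    rw [hu]
    simp [mul_add]
  map_smul' r x := by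
    simp only [RingHom.id_apply]
    rw [← MemLp.toLp_const_smul]
    apply MemLp.toLp_congr
    filter_upwards [Lp.coeFn_smul r x] with u hu
    rw [hu]
    simp only [Pi.smul_apply, smul_eq_mul]
    ring

lemma coe_mulOp (a : BM) (θ : HH) :
    (mulOp a θ : ℝ → ℂ) =ᵐ[mu0] fun u => (a.f u : ℂ) * θ u :=
  MemLp.coeFn_toLp (memLp_mul a (Lp.memLp θ))

lemma inner_eq (θ η : HH) : ⟪θ, η⟫_ℂ = ∫ u, (conj (θ u) * η u) ∂mu0 := by
  rw [L2.inner_def]
  congr 1
  ext u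
  simp [mul_comm]

lemma integrable_conj_mul (θ η : HH) : Integrable (fun u => conj (θ u) * η u) mu0 := by
  have h := L2.integrable_inner (𝕜 := ℂ) θ η
  refine h.congr (Filter.Eventually.of_forall fun u => ?_)
  simp [mul_comm]

lemma inner_mul_mul (a b : BM) (θ η : HH) :
    ⟪mulOp a θ, mulOp b η⟫_ℂ = ∫ u, ((a.f u * b.f u : ℝ) : ℂ) * (conj (θ u) * η u) ∂mu0 := by
  rw [inner_eq]
  apply integral_congr_ae
  filter_upwards [coe_mulOp a θ, coe_mulOp b η] with u h1 h2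
  rw [h1, h2]
  simp only [map_mul, Complex.conj_ofReal]
  push_cast
  ring

lemma inner_mul_right (b : BM) (θ η : HH) :
    ⟪θ, mulOp b η⟫_ℂ = ∫ u, (b.f u : ℂ) * (conj (θ u) * η u) ∂mu0 := by
  rw [inner_eq]
  apply integral_congr_ae
  filter_upwards [coe_mulOp b η] with u h2
  rw [h2]
  ring

lemma inner_mul_left (b : BM) (θ η : HH) :
    ⟪mulOp b θ, η⟫_ℂ = ∫ u, (b.f u : ℂ) * (conj (θ u) * η u) ∂mu0 := by
  rw [inner_eq]
  apply integral_congr_ae
  filter_upwards [coe_mulOp b θ] with u h2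
  rw [h2]
  simp only [map_mul, Complex.conj_ofReal]
  ring

lemma mulOp_symm (b : BM) (θ η : HH) : ⟪mulOp b θ, η⟫_ℂ = ⟪θ, mulOp b η⟫_ℂ := by
  rw [inner_mul_left, inner_mul_right]

/-- the real quadratic form -/
lemma integrable_quad (b : BM) (θ : HH) :
    Integrable (fun u => b.f u * ‖θ u‖ ^ 2) mu0 := by
  have h0 : Integrable (fun u => ‖θ u‖ ^ 2) mu0 :=
    (memLp_two_iff_integrable_sq_norm (Lp.memLp θ).1).mp (Lp.memLp θ)
  refine Integrable.mono' (h0.const_mul b.C) ?_ ?_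
  · exact (b.meas.aestronglyMeasurable).mul h0.1
  · filter_upwards [ae_pos] with u hu
    rw [Real.norm_eq_abs, abs_mul, abs_of_nonneg (by positivity : 0 ≤ ‖θ u‖ ^ 2)]
    exact mul_le_mul_of_nonneg_right (b.bd u hu) (by positivity)

lemma conj_mul_self (z : ℂ) : conj z * z = ((‖z‖ ^ 2 : ℝ) : ℂ) := by
  rw [mul_comm, Complex.mul_conj, Complex.normSq_eq_norm_sq]

lemma inner_mul_self (b : BM) (θ : HH) :
    ⟪θ, mulOp b θ⟫_ℂ = ((∫ u, b.f u * ‖θ u‖ ^ 2 ∂mu0 : ℝ) : ℂ) := by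
  rw [inner_mul_right, ← integral_complex_ofReal]
  congr 1
  ext u
  rw [conj_mul_self]
  push_cast
  ring

lemma norm_sq_mulOp (b : BM) (θ : HH) :
    ‖mulOp b θ‖ ^ 2 = ∫ u, (b.f u) ^ 2 * ‖θ u‖ ^ 2 ∂mu0 := by
  have h := inner_mul_mul b b θ θ
  rw [inner_self_eq_norm_sq_to_K] at h
  have h2 : ((‖mulOp b θ‖ ^ 2 : ℝ) : ℂ) = ((∫ u, (b.f u) ^ 2 * ‖θ u‖ ^ 2 ∂mu0 : ℝ) : ℂ) := by
    rw [← integral_complex_ofReal]
    push_cast
    refine Eq.trans h ?_
    congr 1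
    ext u
    rw [conj_mul_self]
    push_cast
    ring
  exact_mod_cast h2

lemma norm_sq_eq (θ : HH) : ‖θ‖ ^ 2 = ∫ u, ‖θ u‖ ^ 2 ∂mu0 := by
  have h := inner_eq θ θ
  rw [inner_self_eq_norm_sq_to_K] at h
  have h2 : ((‖θ‖ ^ 2 : ℝ) : ℂ) = ((∫ u, ‖θ u‖ ^ 2 ∂mu0 : ℝ) : ℂ) := by
    rw [← integral_complex_ofReal]
    push_cast
    refine Eq.trans h ?_
    congr 1
    ext u
    rw [conj_mul_self]
    push_cast
    ring
  exact_mod_cast h2

lemma integrable_norm_sq (θ : HH) : Integrable (fun u => ‖θ u‖ ^ 2) mu0 :=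
  (memLp_two_iff_integrable_sq_norm (Lp.memLp θ).1).mp (Lp.memLp θ)

lemma quad_le_norm_sq (b : BM) (hb : ∀ u > 0, b.f u ≤ 1) (θ : HH) :
    ∫ u, b.f u * ‖θ u‖ ^ 2 ∂mu0 ≤ ‖θ‖ ^ 2 := by
  rw [norm_sq_eq]
  apply integral_mono_ae (integrable_quad b θ) (integrable_norm_sq θ)
  filter_upwards [ae_pos] with u hu
  have := mul_le_mul_of_nonneg_right (hb u hu) (by positivity : 0 ≤ ‖θ u‖ ^ 2)
  simpa using this

lemma quad_pos_of (b : BM) (hb : ∀ u > 0, 0 < b.f u) (θ : HH) (hθ : θ ≠ 0) :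
    0 < ∫ u, b.f u * ‖θ u‖ ^ 2 ∂mu0 := by
  have h0 : 0 ≤ᵐ[mu0] fun u => b.f u * ‖θ u‖ ^ 2 := by
    filter_upwards [ae_pos] with u hu
    have := (hb u hu).le
    positivity
  have h1 : 0 ≤ ∫ u, b.f u * ‖θ u‖ ^ 2 ∂mu0 := integral_nonneg_of_ae h0
  rcases h1.lt_or_eq with h | h
  · exact h
  · exfalso
    apply hθ
    have h2 := (integral_eq_zero_iff_of_nonneg_ae h0 (integrable_quad b θ)).mp h.symm
    apply Lp.ext
    filter_upwards [h2, ae_pos, Lp.coeFn_zero ℂ 2 mu0] with u h3 h4 h5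
    rw [h5]
    have h6 := (hb u h4).ne'
    simpa [h6] using h3

/-- vectors given by a real function -/
noncomputable def vec (a : ℝ → ℝ) (ha : MemLp (fun u => (a u : ℂ)) 2 mu0) : HH := ha.toLp

lemma coe_vec (a : ℝ → ℝ) (ha : MemLp (fun u => (a u : ℂ)) 2 mu0) :
    (vec a ha : ℝ → ℂ) =ᵐ[mu0] fun u => (a u : ℂ) := MemLp.coeFn_toLp _

lemma inner_vec_left (a : ℝ → ℝ) (ha : MemLp (fun u => (a u : ℂ)) 2 mu0) (η : HH) :
    ⟪vec a ha, η⟫_ℂ = ∫ u, (a u : ℂ) * η u ∂mu0 := by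
  rw [inner_eq]
  apply integral_congr_ae
  filter_upwards [coe_vec a ha] with u h1
  rw [h1]
  simp only [Complex.conj_ofReal]

lemma inner_vec_mul (a : ℝ → ℝ) (ha : MemLp (fun u => (a u : ℂ)) 2 mu0) (b : BM) (η : HH) :
    ⟪vec a ha, mulOp b η⟫_ℂ = ∫ u, ((a u * b.f u : ℝ) : ℂ) * η u ∂mu0 := by
  rw [inner_vec_left]
  apply integral_congr_ae
  filter_upwards [coe_mulOp b η] with u h1
  rw [h1]
  push_cast
  ring

lemma inner_vec_vec (a b : ℝ → ℝ) (ha : MemLp (fun u => (a u : ℂ)) 2 mu0)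
    (hb : MemLp (fun u => (b u : ℂ)) 2 mu0) :
    ⟪vec a ha, vec b hb⟫_ℂ = ((∫ u in Ioi (0 : ℝ), a u * b u : ℝ) : ℂ) := by
  change _ = ((∫ u, a u * b u ∂mu0 : ℝ) : ℂ)
  rw [inner_vec_left, ← integral_complex_ofReal]
  apply integral_congr_ae
  filter_upwards [coe_vec b hb] with u h1
  rw [h1]
  push_cast
  ring

lemma inner_vec_mul_congr (a a' : ℝ → ℝ) (ha : MemLp (fun u => (a u : ℂ)) 2 mu0)
    (ha' : MemLp (fun u => (a' u : ℂ)) 2 mu0) (b b' : BM) (η : HH)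
    (h : ∀ u > 0, a u * b.f u = a' u * b'.f u) :
    ⟪vec a ha, mulOp b η⟫_ℂ = ⟪vec a' ha', mulOp b' η⟫_ℂ := by
  rw [inner_vec_mul, inner_vec_mul]
  apply integral_congr_ae
  filter_upwards [ae_pos] with u hu
  rw [h u hu]

/-- exponential polynomials are in `L²` -/
lemma memLp_poly (P : ℝ[X]) {q : ℝ} (hq : 0 < q) :
    MemLp (fun u : ℝ => ((P.eval u * Real.exp (-q * u) : ℝ) : ℂ)) 2 mu0 := by
  have hc : Continuous (fun u : ℝ => ((P.eval u * Real.exp (-q * u) : ℝ) : ℂ)) := by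
    apply Complex.continuous_ofReal.comp
    exact P.continuous.mul (Real.continuous_exp.comp (by fun_prop))
  rw [memLp_two_iff_integrable_sq_norm hc.aestronglyMeasurable]
  have h := int_poly (P * P) (p := 2 * q) (by linarith)
  refine h.congr (Filter.Eventually.of_forall fun u => ?_)
  simp only [Complex.norm_real, Real.norm_eq_abs, sq_abs, mul_pow, eval_mul]
  rw [← Real.exp_nat_mul]
  push_cast
  ring_nf

lemma memLp_sqrt_poly (P : ℝ[X]) {q : ℝ} (hq : 0 < q) :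
    MemLp (fun u : ℝ => ((Real.sqrt u * (P.eval u * Real.exp (-q * u)) : ℝ) : ℂ)) 2 mu0 := by
  have hc : Continuous (fun u : ℝ =>
      ((Real.sqrt u * (P.eval u * Real.exp (-q * u)) : ℝ) : ℂ)) := by
    apply Complex.continuous_ofReal.comp
    exact Real.continuous_sqrt.mul (P.continuous.mul (Real.continuous_exp.comp (by fun_prop)))
  rw [memLp_two_iff_integrable_sq_norm hc.aestronglyMeasurable]
  have h := int_poly (X * (P * P)) (p := 2 * q) (by linarith)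
  refine h.congr ?_
  have := ae_pos
  unfold mu0 at this
  filter_upwards [this] with u hu
  simp only [Complex.norm_real, Real.norm_eq_abs, sq_abs, mul_pow, eval_mul, eval_X]
  rw [Real.sq_sqrt hu.le, ← Real.exp_nat_mul]
  push_cast
  ring_nf

/-- `P(u) e^{-qu}` as vector -/
noncomputable def pv (P : ℝ[X]) (q : ℝ) (hq : 0 < q) : HH := vec _ (memLp_poly P hq)

/-- `√u P(u) e^{-qu}` as vector -/
noncomputable def spv (P : ℝ[X]) (q : ℝ) (hq : 0 < q) : HH := vec _ (memLp_sqrt_poly P hq)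

lemma half_pos' : (0 : ℝ) < 1 / 2 := by norm_num

/-- Laguerre functions -/
noncomputable def lam (j : ℕ) : HH := pv (ellP j) (1 / 2) half_pos'

/-- partial sums of the Laguerre functions -/
noncomputable def Lam (m : ℕ) : HH := pv (SP m) (1 / 2) half_pos'

/-- second orthogonal family -/
noncomputable def om (m : ℕ) : HH := spv (SP m) (1 / 2) half_pos'

/-- exponentials -/
noncomputable def Psi (p : ℝ) (hp : 1 / 2 < p) : HH :=
  pv (Polynomial.C p) (p - 1 / 2) (by linarith)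

lemma inner_pv (P Q : ℝ[X]) : ⟪pv P (1 / 2) half_pos', pv Q (1 / 2) half_pos'⟫_ℂ = (gram P Q : ℂ) := by
  unfold pv gram
  rw [inner_vec_vec]
  congr 2
  ext u
  rw [eval_mul]
  have : Real.exp (-1 * u) = Real.exp (-(1 / 2) * u) * Real.exp (-(1 / 2) * u) := by
    rw [← Real.exp_add]; ring_nf
  rw [this]
  ring

lemma inner_spv (P Q : ℝ[X]) :
    ⟪spv P (1 / 2) half_pos', spv Q (1 / 2) half_pos'⟫_ℂ = (gram (X * P) Q : ℂ) := by
  unfold spv gram
  rw [inner_vec_vec]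
  congr 1
  apply setIntegral_congr_fun measurableSet_Ioi
  intro u hu
  simp only [eval_mul, eval_X]
  have h1 : Real.exp (-1 * u) = Real.exp (-(1 / 2) * u) * Real.exp (-(1 / 2) * u) := by
    rw [← Real.exp_add]; ring_nf
  have h2 : Real.sqrt u * Real.sqrt u = u := Real.mul_self_sqrt (le_of_lt hu)
  rw [h1]
  linear_combination (eval u P * eval u Q * Real.exp (-(1 / 2) * u) ^ 2) * h2

lemma inner_lam (j k : ℕ) : ⟪lam j, lam k⟫_ℂ = if j = k then 1 else 0 := by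
  unfold lam
  rw [inner_pv, gram_ell]
  split_ifs <;> simp

lemma orthonormal_lam : Orthonormal ℂ lam := by
  rw [orthonormal_iff_ite]
  intro i j
  exact inner_lam i j

lemma inner_om (m n : ℕ) : ⟪om m, om n⟫_ℂ = if m = n then ((m : ℂ) + 1) else 0 := by
  unfold om
  rw [inner_spv, gram_XSP]
  split_ifs <;> simp

/-- normalised second family -/
noncomputable def on (m : ℕ) : HH := (((Real.sqrt ((m : ℝ) + 1))⁻¹ : ℝ) : ℂ) • om m

lemma orthonormal_on : Orthonormal ℂ on := by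
  rw [orthonormal_iff_ite]
  intro i j
  unfold on
  rw [inner_smul_left, inner_smul_right, inner_om]
  by_cases h : i = j
  · subst h
    simp only [if_true]
    rw [Complex.conj_ofReal]
    have h1 : Real.sqrt ((i : ℝ) + 1) * Real.sqrt ((i : ℝ) + 1) = (i : ℝ) + 1 :=
      Real.mul_self_sqrt (by positivity)
    have h2 : (Real.sqrt ((i : ℝ) + 1))⁻¹ * ((Real.sqrt ((i : ℝ) + 1))⁻¹ * ((i : ℝ) + 1)) = 1 := by
      have h3 : Real.sqrt ((i : ℝ) + 1) ≠ 0 := by positivity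
      rw [← mul_assoc, ← mul_inv, h1, inv_mul_cancel₀ (by positivity)]
    exact_mod_cast h2
  · simp [h]

lemma vec_add {a b : ℝ → ℝ} (ha : MemLp (fun u => (a u : ℂ)) 2 mu0)
    (hb : MemLp (fun u => (b u : ℂ)) 2 mu0) {d : ℝ → ℝ} (hd : MemLp (fun u => (d u : ℂ)) 2 mu0)
    (h : ∀ u > 0, d u = a u + b u) : vec d hd = vec a ha + vec b hb := by
  apply Lp.ext
  filter_upwards [coe_vec a ha, coe_vec b hb, coe_vec d hd, Lp.coeFn_add (vec a ha) (vec b hb),
    ae_pos] with u h1 h2 h3 h4 h5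
  rw [h4, Pi.add_apply, h1, h2, h3, h u h5]
  push_cast
  ring

lemma vec_smul {a : ℝ → ℝ} (ha : MemLp (fun u => (a u : ℂ)) 2 mu0) (r : ℝ)
    {d : ℝ → ℝ} (hd : MemLp (fun u => (d u : ℂ)) 2 mu0)
    (h : ∀ u > 0, d u = r * a u) : vec d hd = (r : ℂ) • vec a ha := by
  apply Lp.ext
  filter_upwards [coe_vec a ha, coe_vec d hd, Lp.coeFn_smul (r : ℂ) (vec a ha),
    ae_pos] with u h1 h3 h4 h5
  rw [h4, Pi.smul_apply, h1, h3, h u h5]
  simp

lemma Lam_succ (m : ℕ) : Lam (m + 1) = Lam m + lam (m + 1) := by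
  unfold Lam lam pv
  apply vec_add
  intro u _
  rw [SP_succ, eval_add]
  ring

lemma Lam_zero : Lam 0 = lam 0 := by
  unfold Lam lam
  have : SP 0 = ellP 0 := by unfold SP; simp
  rw [this]

lemma inner_Lam_lam (m k : ℕ) : ⟪Lam m, lam k⟫_ℂ = if k ≤ m then 1 else 0 := by
  unfold Lam lam
  rw [inner_pv, gram_SP_ell]
  split_ifs <;> simp

lemma norm_Lam_sq (m : ℕ) : ‖Lam m‖ ^ 2 = (m : ℝ) + 1 := by
  have h : ⟪Lam m, Lam m⟫_ℂ = ((m : ℂ) + 1) := by
    unfold Lam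
    rw [inner_pv, gram_sum_left]
    have h2 : ∀ j ∈ range (m + 1), gram (ellP j) (SP m) = 1 := by
      intro j hj
      rw [gram_comm, gram_SP_ell, if_pos (Nat.lt_succ_iff.mp (Finset.mem_range.mp hj))]
    rw [Finset.sum_congr rfl h2]
    simp
  rw [inner_self_eq_norm_sq_to_K] at h
  have h3 : (((‖Lam m‖ ^ 2 : ℝ)) : ℂ) = (((m : ℝ) + 1 : ℝ) : ℂ) := by
    push_cast
    exact h
  exact_mod_cast h3

/-- the coordinates `T_m` -/
noncomputable def TT (m : ℕ) (θ : HH) : ℂ := ⟪Lam m, θ⟫_ℂ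

lemma TT_add (m : ℕ) (x y : HH) : TT m (x + y) = TT m x + TT m y := inner_add_right _ _ _
lemma TT_smul (m : ℕ) (r : ℂ) (x : HH) : TT m (r • x) = r * TT m x := inner_smul_right _ _ _
lemma TT_zero (m : ℕ) : TT m (0 : HH) = 0 := inner_zero_right _

lemma norm_TT_sq_le (m : ℕ) (θ : HH) : ‖TT m θ‖ ^ 2 / ((m : ℝ) + 1) ≤ ‖θ‖ ^ 2 := by
  have h := norm_inner_le_norm (𝕜 := ℂ) (Lam m) θ
  have h2 : ‖TT m θ‖ ^ 2 ≤ (‖Lam m‖ * ‖θ‖) ^ 2 := by
    unfold TT
    gcongr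
  rw [mul_pow, norm_Lam_sq] at h2
  rw [div_le_iff₀ (by positivity)]
  linarith

/-- `τ_m = λ_m - λ_{m+1}` -/
noncomputable def tau (m : ℕ) : HH := lam m - lam (m + 1)

lemma TT_tau (k m : ℕ) : TT k (tau m) = if k = m then 1 else 0 := by
  unfold TT tau
  rw [inner_sub_right, inner_Lam_lam, inner_Lam_lam]
  by_cases h : k = m
  · subst h; simp
  · by_cases h2 : m ≤ k
    · have h3 : m + 1 ≤ k := by omega
      simp [h, h2, h3]
    · have h3 : ¬ (m + 1 ≤ k) := by omega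
      simp [h, h2, h3]

end Pool.Agent.GKW
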