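import Pool.Agent.Lib.MP_b608a7_an.Transfer

set_option autoImplicit false

/-!
Final assembly.
-/

namespace Pool.Agent.GKW

open Finset MeasureTheory Set
open scoped InnerProductSpace ComplexConjugate

/-- `L - l` -/
noncomputable def Top (l : ℂ) (h : ℂ → ℂ) : ℂ → ℂ := fun y => Lop h y - l * h y

/-- extension of a chain to the half plane -/
theorem exists_chain (l : ℂ) (hl : l ≠ 0) (k : ℕ) : ∀ f : ℂ → ℂ, DifferentiableOn ℂ f UU →
    (∀ x ∈ UU, (Top l)^[k] f x = 0) →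
    ∃ F : ℕ → ℂ → ℂ, (∀ i, Good (F i)) ∧ (∀ x ∈ UU, F 0 x = f x) ∧
      (∀ i, ∀ x ∈ PP, Lop (F i) x = l * F i x + F (i + 1) x) ∧
      (∀ i, k ≤ i → ∀ x ∈ PP, F i x = 0) := by
  induction k with
  | zero =>
    intro f _ hf
    refine ⟨fun _ _ => 0, fun _ => Good_zero, ?_, ?_, ?_⟩
    · intro x hx
      exact (hf x hx).symm
    · intro i x _
      unfold Lop
      simp
    · intro i _ x _
      rfl
  | succ k ih =>
    intro f hfd hf
    have hT : DifferentiableOn ℂ (Top l f) UU := by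
      unfold Top
      exact ((Lop_diff hfd).mono UU_subset_PP).sub (hfd.const_mul l)
    obtain ⟨F', hG, h0, hrel, hz⟩ := ih (Top l f) hT (fun x hx => by
      have := hf x hx
      rwa [Function.iterate_succ_apply] at this)
    set F0 : ℂ → ℂ := fun x => l⁻¹ * Lop f x + (-l⁻¹) * F' 0 x with hF0
    have hF0f : ∀ x ∈ UU, F0 x = f x := by
      intro x hx
      rw [hF0]
      simp only
      rw [h0 x hx]
      unfold Top
      field_simp
      ring
    refine ⟨fun i => Nat.casesOn i F0 F', ?_, ?_, ?_, ?_⟩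
    · intro i
      cases i with
      | zero => exact Good_comb (Good_Lop hfd) (hG 0) _ _
      | succ i => exact hG i
    · exact hF0f
    · intro i x hx
      cases i with
      | zero =>
        change Lop F0 x = l * F0 x + F' 0 x
        rw [Lop_congr hF0f hx, hF0]
        simp only
        field_simp
        ring
      | succ i => exact hrel i x hx
    · intro i hi x hx
      cases i with
      | zero => omega
      | succ i => exact hz i (by omega) x hx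

/-- the eigenvector attached to a generalised eigenfunction -/
theorem exists_eig (l : ℂ) (hl : l ≠ 0) (k : ℕ) (f : ℂ → ℂ) (hfd : DifferentiableOn ℂ f UU)
    (hf : ∀ x ∈ UU, (Top l)^[k] f x = 0) :
    ∃ (F : ℂ → ℂ) (X : HH), (∀ x ∈ UU, F x = f x) ∧ IsRep F X ∧ IsEig l X := by
  obtain ⟨F, hG, h0, hrel, hz⟩ := exists_chain l hl k f hfd hf
  choose X hX using fun i => exists_IsRep (hG i)
  have hweak : ∀ i η, InK η → l * ⟪η, mulOp gB (X i)⟫_ℂ + ⟪η, mulOp gB (X (i + 1))⟫_ℂ =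
      ⟪η, bOp (X i)⟫_ℂ := by
    intro i η hη
    have hrep := IsRep_comb (hX i) (hX (i + 1)) l 1
    have hFd : DifferentiableOn ℂ (F i) UU := (hG i).1.mono UU_subset_PP
    have hK := rep_K (hX i) hrep (fun y hy => by
      have hyP : (y : ℂ) ∈ PP := by
        change -(1 / 2 : ℝ) < (y : ℂ).re
        rw [Complex.ofReal_re]; exact hy
      have hyP1 : (y : ℂ) + 1 ∈ PP := by
        change -(1 / 2 : ℝ) < ((y : ℂ) + 1).re
        rw [Complex.add_re, Complex.ofReal_re, Complex.one_re]; linarith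
      have h1 := hrel i _ hyP
      have h2 := hrel i _ hyP1
      have h3 := Lop_tele hFd hyP
      rw [h1, h2] at h3
      rw [← h3]
      ring)
    have h4 := weak_rel hK η hη
    rw [map_add, map_smul, map_smul, inner_add_right, inner_smul_right, inner_smul_right,
      one_mul] at h4
    exact h4
  have hXk : X (k + 1) = 0 := IsRep_of_zero (hX (k + 1)) (hz (k + 1) (by omega))
  have hX1 : X 1 = 0 := chain_zero X (fun i => (hX i).1) hweak k hXk
  refine ⟨F 0, X 0, h0, hX 0, (hX 0).1, ?_⟩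
  intro η hη
  have := hweak 0 η hη
  rw [zero_add, hX1, map_zero, inner_zero_right, add_zero] at this
  exact this

lemma UU_subset : UU ⊆ Metric.closedBall (1 : ℂ) (3 / 2 : ℝ) := Metric.ball_subset_closedBall

lemma closedBall_eq : Metric.closedBall (1 : ℂ) (3 / 2 : ℝ) ⊆ closure UU := by
  unfold UU
  rw [closure_ball (1 : ℂ) (by norm_num : (3 / 2 : ℝ) ≠ 0)]

theorem part_one (l : ℂ) (hl : l ≠ 0) (f g : ℂ → ℂ)
    (hfc : ContinuousOn f (Metric.closedBall (1 : ℂ) (3 / 2 : ℝ)))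
    (hfd : DifferentiableOn ℂ f (Metric.ball (1 : ℂ) (3 / 2 : ℝ)))
    (hgc : ContinuousOn g (Metric.closedBall (1 : ℂ) (3 / 2 : ℝ)))
    (hgd : DifferentiableOn ℂ g (Metric.ball (1 : ℂ) (3 / 2 : ℝ)))
    (hf : ∃ k : ℕ, ∀ x ∈ Metric.closedBall (1 : ℂ) (3 / 2 : ℝ), (Top l)^[k] f x = 0)
    (hg : ∃ k : ℕ, ∀ x ∈ Metric.closedBall (1 : ℂ) (3 / 2 : ℝ), (Top l)^[k] g x = 0) :
    ∃ c : ℂ, (∀ x ∈ Metric.closedBall (1 : ℂ) (3 / 2 : ℝ), f x = c * g x) ∨
      (∀ x ∈ Metric.closedBall (1 : ℂ) (3 / 2 : ℝ), g x = c * f x) := by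
  obtain ⟨k1, hk1⟩ := hf
  obtain ⟨k2, hk2⟩ := hg
  obtain ⟨F, X, hFf, hFX, hX⟩ := exists_eig l hl k1 f hfd (fun x hx => hk1 x (UU_subset hx))
  obtain ⟨G, Y, hGg, hGY, hY⟩ := exists_eig l hl k2 g hgd (fun x hx => hk2 x (UU_subset hx))
  have key : ∀ (c : ℂ) (a b A B : ℂ → ℂ) (U V : HH),
      ContinuousOn a (Metric.closedBall (1 : ℂ) (3 / 2 : ℝ)) →
      ContinuousOn b (Metric.closedBall (1 : ℂ) (3 / 2 : ℝ)) →
      (∀ x ∈ UU, A x = a x) → (∀ x ∈ UU, B x = b x) → IsRep A U → IsRep B V →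
      U - c • V = 0 → ∀ x ∈ Metric.closedBall (1 : ℂ) (3 / 2 : ℝ), a x = c * b x := by
    intro c a b A B U V ha hb hA hB hAU hBV h0
    have h1 := IsRep_comb hAU hBV 1 (-c)
    have h2 : (1 : ℂ) • U + (-c) • V = 0 := by
      rw [one_smul, neg_smul, ← sub_eq_add_neg]; exact h0
    rw [h2] at h1
    have hEq : Set.EqOn a (fun x => c * b x) UU := by
      intro x hx
      have h3 := IsRep_zero h1 (UU_subset_PP hx)
      rw [hA x hx, hB x hx] at h3
      change a x = c * b x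
      linear_combination h3
    exact hEq.of_subset_closure ha (continuousOn_const.mul hb) UU_subset closedBall_eq
  obtain ⟨c, hc | hc⟩ := eig_simple hl hX hY
  · exact ⟨c, Or.inl (key c f g F G X Y hfc hgc hFf hGg hFX hGY hc)⟩
  · exact ⟨c, Or.inr (key c g f G F Y X hgc hfc hGg hFf hGY hFX hc)⟩

theorem part_two (l μ : ℂ) (hl : l ≠ 0) (hμ : μ ≠ 0)
    (hf : ∃ f : ℂ → ℂ, ContinuousOn f (Metric.closedBall (1 : ℂ) (3 / 2 : ℝ)) ∧
      DifferentiableOn ℂ f (Metric.ball (1 : ℂ) (3 / 2 : ℝ)) ∧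
      (∃ x ∈ Metric.closedBall (1 : ℂ) (3 / 2 : ℝ), f x ≠ 0) ∧
      ∀ x ∈ Metric.closedBall (1 : ℂ) (3 / 2 : ℝ), Lop f x = l * f x)
    (hg : ∃ g : ℂ → ℂ, ContinuousOn g (Metric.closedBall (1 : ℂ) (3 / 2 : ℝ)) ∧
      DifferentiableOn ℂ g (Metric.ball (1 : ℂ) (3 / 2 : ℝ)) ∧
      (∃ x ∈ Metric.closedBall (1 : ℂ) (3 / 2 : ℝ), g x ≠ 0) ∧
      ∀ x ∈ Metric.closedBall (1 : ℂ) (3 / 2 : ℝ), Lop g x = μ * g x)
    (habs : ‖l‖ = ‖μ‖) : l = μ := by
  have key : ∀ (l : ℂ), l ≠ 0 → (∃ f : ℂ → ℂ,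
      ContinuousOn f (Metric.closedBall (1 : ℂ) (3 / 2 : ℝ)) ∧
      DifferentiableOn ℂ f (Metric.ball (1 : ℂ) (3 / 2 : ℝ)) ∧
      (∃ x ∈ Metric.closedBall (1 : ℂ) (3 / 2 : ℝ), f x ≠ 0) ∧
      ∀ x ∈ Metric.closedBall (1 : ℂ) (3 / 2 : ℝ), Lop f x = l * f x) →
      ∃ X : HH, IsEig l X ∧ X ≠ 0 := by
    rintro l hl ⟨f, hfc, hfd, ⟨x, hx, hne⟩, hf⟩
    obtain ⟨F, X, hFf, hFX, hX⟩ := exists_eig l hl 1 f hfd (fun x hx => by
      rw [Function.iterate_one]
      unfold Top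
      rw [hf x (UU_subset hx), sub_self])
    refine ⟨X, hX, ?_⟩
    intro h0
    rw [h0] at hFX
    have hEq : Set.EqOn f (fun _ => 0) UU := by
      intro y hy
      change f y = 0
      rw [← hFf y hy]
      exact IsRep_zero hFX (UU_subset_PP hy)
    exact hne (hEq.of_subset_closure hfc continuousOn_const UU_subset closedBall_eq hx)
  obtain ⟨X, hX, hX0⟩ := key l hl hf
  obtain ⟨Y, hY, hY0⟩ := key μ hμ hg
  exact eig_abs hl hμ hX hX0 hY hY0 habs

end Pool.Agent.GKW
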