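import Pool.Agent.Lib.MP_b608a7_an.Spectral

set_option autoImplicit false

/-!
Power series: uniqueness, square-summable coefficients of bounded analytic functions.
-/

namespace Pool.Agent.GKW

open Finset MeasureTheory Set Polynomial
open scoped InnerProductSpace ComplexConjugate

/-- bounded coefficients and zero sums on `(-1,1)` -/
lemma ps_zero (d : ℕ → ℂ) (D : ℝ) (hd : ∀ j, ‖d j‖ ≤ D)
    (h : ∀ w : ℝ, |w| < 1 → HasSum (fun j : ℕ => (w : ℂ) ^ j * d j) 0) : ∀ j, d j = 0 := by
  intro n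
  induction n using Nat.strong_induction_on with
  | _ n ih =>
    have hD : 0 ≤ D := (norm_nonneg _).trans (hd 0)
    have key : ∀ w : ℝ, 0 < w → w < 1 / 2 → ‖d n‖ ≤ 2 * D * w := by
      intro w hw0 hw1
      have hwne : (w : ℂ) ≠ 0 := by exact_mod_cast hw0.ne'
      have h1 := h w (by rw [abs_of_pos hw0]; linarith)
      have h2 : HasSum (fun j : ℕ => (w : ℂ) ^ (j + (n + 1)) * d (j + (n + 1)))
          (0 - ∑ i ∈ range (n + 1), (w : ℂ) ^ i * d i) := by
        exact (hasSum_nat_add_iff' (f := fun j : ℕ => (w : ℂ) ^ j * d j) (n + 1)).mpr h1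
      rw [Finset.sum_range_succ, Finset.sum_eq_zero (fun i hi => by
        rw [ih i (Finset.mem_range.mp hi), mul_zero]), zero_add, zero_sub] at h2
      have h3 : HasSum (fun j : ℕ => D * w ^ (n + 1) * w ^ j) (D * w ^ (n + 1) * (1 - w)⁻¹) :=
        (hasSum_geometric_of_lt_one hw0.le (by linarith)).mul_left _
      have h4 : ‖-((w : ℂ) ^ n * d n)‖ ≤ D * w ^ (n + 1) * (1 - w)⁻¹ := by
        rw [← h2.tsum_eq]
        apply tsum_of_norm_bounded h3
        intro j
        rw [norm_mul, norm_pow, Complex.norm_real, Real.norm_eq_abs, abs_of_pos hw0, pow_add]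
        have := hd (j + (n + 1))
        have h5 : 0 ≤ w ^ j * w ^ (n + 1) := by positivity
        calc w ^ j * w ^ (n + 1) * ‖d (j + (n + 1))‖ ≤ w ^ j * w ^ (n + 1) * D :=
              mul_le_mul_of_nonneg_left this h5
          _ = D * w ^ (n + 1) * w ^ j := by ring
      rw [norm_neg, norm_mul, norm_pow, Complex.norm_real, Real.norm_eq_abs, abs_of_pos hw0] at h4
      have h6 : (1 - w)⁻¹ ≤ 2 := by
        rw [inv_le_comm₀ (by linarith) (by norm_num)]
        linarith
      have h7 : 0 < w ^ n := by positivity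
      have h8 : w ^ n * ‖d n‖ ≤ w ^ n * (2 * D * w) := by
        refine h4.trans ?_
        have : D * w ^ (n + 1) * (1 - w)⁻¹ ≤ D * w ^ (n + 1) * 2 := by
          apply mul_le_mul_of_nonneg_left h6 (by positivity)
        refine this.trans (le_of_eq ?_)
        ring
      exact le_of_mul_le_mul_left h8 h7
    by_contra hne
    have hpos : 0 < ‖d n‖ := norm_pos_iff.mpr hne
    set w : ℝ := min (1 / 4) (‖d n‖ / (4 * (D + 1))) with hw
    have hw0 : 0 < w := by
      apply lt_min (by norm_num)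
      positivity
    have hw1 : w < 1 / 2 := lt_of_le_of_lt (min_le_left _ _) (by norm_num)
    have hw2 : w ≤ ‖d n‖ / (4 * (D + 1)) := min_le_right _ _
    have h1 := key w hw0 hw1
    rw [le_div_iff₀ (by positivity)] at hw2
    nlinarith

/-- the telescoped series: from `∑ a_j w^j` to `∑ (a_j - a_{j-1}) w^j` -/
lemma hasSum_diff (a : ℕ → ℂ) (w A : ℂ) (h : HasSum (fun j : ℕ => w ^ j * a j) A) :
    HasSum (fun j : ℕ => w ^ j * (a j - (if j = 0 then 0 else a (j - 1)))) ((1 - w) * A) := by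
  have h1 : HasSum (fun j : ℕ => w ^ (j + 1) * a j) (w * A) := by
    have := h.mul_left w
    refine this.congr_fun ?_ |> fun h => h
    intro j
    ring
  have h2 : HasSum (fun j : ℕ => w ^ j * (if j = 0 then 0 else a (j - 1))) (w * A) := by
    rw [← hasSum_nat_add_iff' 1]
    simpa using h1
  have h3 := h.sub h2
  have e : (1 - w) * A = A - w * A := by ring
  rw [e]
  refine h3.congr_fun ?_ |> fun h => h
  intro j
  ring

/-- bounded analytic functions on the disc have square-summable coefficients -/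
lemma coeff_sq_le (g : ℂ → ℂ) (M : ℝ) (hM : ∀ z : ℂ, ‖z‖ < 1 → ‖g z‖ ≤ M) (t : ℕ → ℂ)
    (ht : ∀ z : ℂ, ‖z‖ < 1 → HasSum (fun j : ℕ => z ^ j * t j) (g z)) (m : ℕ) :
    ∑ j ∈ range m, ‖t j‖ ^ 2 ≤ M ^ 2 := by
  have hM0 : 0 ≤ M := (norm_nonneg _).trans (hM 0 (by simp))
  -- for each r < 1
  have key : ∀ r : ℝ, 0 < r → r < 1 → ∑ j ∈ range m, ‖t j‖ ^ 2 * (r ^ 2) ^ j ≤ M ^ 2 := by
    intro r hr0 hr1
    have hrn : ‖(r : ℂ)‖ < 1 := by
      rw [Complex.norm_real, Real.norm_eq_abs, abs_of_pos hr0]; exact hr1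
    have hsum : Summable (fun j : ℕ => r ^ j * ‖t j‖) := by
      have := (ht r hrn).summable.norm
      refine this.congr ?_
      intro j
      rw [norm_mul, norm_pow, Complex.norm_real, Real.norm_eq_abs, abs_of_pos hr0]
    have htail := tendsto_sum_nat_add (fun j : ℕ => r ^ j * ‖t j‖)
    -- bound for each n
    have hbd : ∀ n : ℕ, m ≤ n → ∑ j ∈ range m, ‖t j‖ ^ 2 * (r ^ 2) ^ j ≤
        (M + ∑' k : ℕ, r ^ (k + n) * ‖t (k + n)‖) ^ 2 := by
      intro n hmn
      set Pn : ℂ[X] := ∑ j ∈ range n, Polynomial.C ((r : ℂ) ^ j * t j) * X ^ j with hPn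
      have hcoef : ∀ k, Pn.coeff k = if k < n then (r : ℂ) ^ k * t k else 0 := by
        intro k
        rw [hPn, finsetSum_coeff]
        simp only [coeff_C_mul, coeff_X_pow, mul_ite, mul_one, mul_zero]
        rw [Finset.sum_ite_eq]
        simp
      have hsupp : Pn.support ⊆ range n := by
        intro k hk
        rw [Polynomial.mem_support_iff, hcoef] at hk
        rw [Finset.mem_range]
        by_contra hlt
        rw [if_neg hlt] at hk
        exact hk rfl
      have h1 := Polynomial.sum_sq_norm_coeff_eq_circleAverage Pn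
      have h2 : ∑ i ∈ Pn.support, ‖Pn.coeff i‖ ^ 2 = ∑ i ∈ range n, ‖Pn.coeff i‖ ^ 2 := by
        apply Finset.sum_subset hsupp
        intro i _ hi
        rw [Polynomial.notMem_support_iff.mp hi]
        simp
      have h3 : ∑ i ∈ range n, ‖Pn.coeff i‖ ^ 2 = ∑ j ∈ range n, ‖t j‖ ^ 2 * (r ^ 2) ^ j := by
        apply Finset.sum_congr rfl
        intro i hi
        rw [hcoef, if_pos (Finset.mem_range.mp hi), norm_mul, norm_pow, Complex.norm_real,
          Real.norm_eq_abs, abs_of_pos hr0]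
        ring
      have h4 : ∑ j ∈ range m, ‖t j‖ ^ 2 * (r ^ 2) ^ j ≤
          ∑ j ∈ range n, ‖t j‖ ^ 2 * (r ^ 2) ^ j := by
        apply Finset.sum_le_sum_of_subset_of_nonneg
        · exact Finset.range_subset_range.mpr hmn
        · intro i _ _
          positivity
      refine h4.trans ?_
      rw [← h3, ← h2, h1]
      apply Real.circleAverage_mono_on_of_le_circle
      · apply ContinuousOn.circleIntegrable'
        fun_prop
      · intro z hz
        rw [abs_one, mem_sphere_zero_iff_norm] at hz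
        have hrz : ‖(r : ℂ) * z‖ < 1 := by
          rw [norm_mul, hz, mul_one]; exact hrn
        have h5 := ht ((r : ℂ) * z) hrz
        have h6 : Pn.eval z = ∑ j ∈ range n, ((r : ℂ) * z) ^ j * t j := by
          rw [hPn, eval_finsetSum]
          apply Finset.sum_congr rfl
          intro j _
          simp only [eval_mul, eval_C, eval_pow, eval_X]
          ring
        have h7 : HasSum (fun j : ℕ => ((r : ℂ) * z) ^ (j + n) * t (j + n))
            (g ((r : ℂ) * z) - Pn.eval z) := by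
          rw [h6]
          exact (hasSum_nat_add_iff' n).mpr h5
        have h8 : ‖g ((r : ℂ) * z) - Pn.eval z‖ ≤ ∑' k : ℕ, r ^ (k + n) * ‖t (k + n)‖ := by
          rw [← h7.tsum_eq]
          have hs2 : Summable (fun k : ℕ => r ^ (k + n) * ‖t (k + n)‖) :=
            (summable_nat_add_iff n).mpr hsum
          apply tsum_of_norm_bounded hs2.hasSum
          intro j
          rw [norm_mul, norm_pow, norm_mul, hz, mul_one, Complex.norm_real, Real.norm_eq_abs,
            abs_of_pos hr0]
        have h9 : ‖Pn.eval z‖ ≤ M + ∑' k : ℕ, r ^ (k + n) * ‖t (k + n)‖ := by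
          have := norm_sub_norm_le (Pn.eval z) (g ((r : ℂ) * z))
          rw [norm_sub_rev] at this
          have h10 := hM _ hrz
          linarith
        exact pow_le_pow_left₀ (norm_nonneg _) h9 2
    have hlim : Filter.Tendsto (fun n : ℕ => (M + ∑' k : ℕ, r ^ (k + n) * ‖t (k + n)‖) ^ 2)
        Filter.atTop (nhds ((M + 0) ^ 2)) := (htail.const_add M).pow 2
    rw [add_zero] at hlim
    apply ge_of_tendsto hlim
    filter_upwards [Filter.eventually_ge_atTop m] with n hn
    exact hbd n hn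
  -- let r → 1
  have hcont : Filter.Tendsto (fun r : ℝ => ∑ j ∈ range m, ‖t j‖ ^ 2 * (r ^ 2) ^ j)
      (nhdsWithin 1 (Iio 1)) (nhds (∑ j ∈ range m, ‖t j‖ ^ 2 * ((1 : ℝ) ^ 2) ^ j)) := by
    apply Filter.Tendsto.mono_left _ nhdsWithin_le_nhds
    apply Continuous.tendsto
    fun_prop
  have h1 : ∑ j ∈ range m, ‖t j‖ ^ 2 * ((1 : ℝ) ^ 2) ^ j ≤ M ^ 2 := by
    apply le_of_tendsto hcont
    have hI : Ioo (0 : ℝ) 1 ∈ nhdsWithin (1 : ℝ) (Iio 1) :=
      Ioo_mem_nhdsLT (by norm_num)
    filter_upwards [hI] with r hr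
    exact key r hr.1 hr.2
  simpa using h1

/-- a vector with prescribed square-summable coefficients -/
lemma exists_vector (t : ℕ → ℂ) (M : ℝ) (h : ∀ m, ∑ j ∈ range m, ‖t j‖ ^ 2 ≤ M) :
    ∃ x : HH, InK x ∧ ∀ j, ⟪lam j, x⟫_ℂ = t j := by
  have hs : Summable (fun j => ‖t j‖ ^ 2) :=
    summable_of_sum_range_le (fun _ => by positivity) h
  have hO := orthonormal_lam.orthogonalFamily
  have hs2 : Summable (fun j => t j • lam j) := by
    have := (hO.summable_iff_norm_sq_summable t).mpr hs
    simpa [LinearIsometry.toSpanSingleton_apply] using this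
  refine ⟨∑' j, t j • lam j, ?_, ?_⟩
  · intro ξ hξ
    have h1 := (hs2.hasSum).mapL (innerSL ℂ ξ)
    simp only [innerSL_apply_apply, inner_smul_right] at h1
    have h2 : ∀ j, ⟪ξ, lam j⟫_ℂ = 0 := by
      intro j
      rw [← inner_conj_symm, hξ j, map_zero]
    simp only [h2, mul_zero] at h1
    have h3 := h1.unique hasSum_zero
    rw [← inner_conj_symm, h3, map_zero]
  · intro j
    have h1 := (hs2.hasSum).mapL (innerSL ℂ (lam j))
    simp only [innerSL_apply_apply, inner_smul_right, inner_lam] at h1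
    have h2 := hasSum_ite_eq j (t j)
    refine h1.unique (h2.congr_fun ?_ |> fun h => h)
    intro k
    by_cases hk : k = j
    · subst hk; simp
    · simp [hk, Ne.symm hk]

/-- representation of a bounded analytic function on the disc -/
theorem exists_rep (g : ℂ → ℂ) (M : ℝ) (hg : DifferentiableOn ℂ g (Metric.ball 0 1))
    (hM : ∀ z : ℂ, ‖z‖ < 1 → ‖g z‖ ≤ M) :
    ∃ x : HH, InK x ∧ ∀ z : ℂ, ‖z‖ < 1 → HasSum (fun j : ℕ => z ^ j * ⟪lam j, x⟫_ℂ) (g z) := by
  set t : ℕ → ℂ := fun n => ((n.factorial : ℂ))⁻¹ * iteratedDeriv n g 0 with ht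
  have h1 : ∀ z : ℂ, ‖z‖ < 1 → HasSum (fun j : ℕ => z ^ j * t j) (g z) := by
    intro z hz
    have := Complex.hasSum_taylorSeries_on_ball hg (z := z) (by simpa using hz)
    refine this.congr_fun ?_ |> fun h => h
    intro j
    simp only [smul_eq_mul, sub_zero, ht]
    ring
  obtain ⟨x, hx1, hx2⟩ := exists_vector t (M ^ 2) (coeff_sq_le g M hM t h1)
  refine ⟨x, hx1, ?_⟩
  intro z hz
  simp only [hx2]
  exact h1 z hz

end Pool.Agent.GKW
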