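import Mathlib

set_option autoImplicit false

/-!
Elementary sequence inequality (a discrete Riccati argument) used for the
Gauss-Kuzmin-Wirsing operator.
-/

namespace Pool.Agent.GKW

open Finset

/-- `s5 = √5`. -/
noncomputable def s5 : ℝ := Real.sqrt 5

lemma s5_sq : s5 ^ 2 = 5 := by
  unfold s5; exact Real.sq_sqrt (by norm_num)

lemma s5_lb : (2.236 : ℝ) < s5 := by
  unfold s5; rw [Real.lt_sqrt (by norm_num)]; norm_num

lemma s5_ub : s5 < (2.2361 : ℝ) := by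
  unfold s5; rw [Real.sqrt_lt' (by norm_num)]; norm_num

lemma s5_pos : 0 < s5 := by linarith [s5_lb]

/-- `rr = φ⁻²`. -/
noncomputable def rr : ℝ := (3 - s5) / 2

lemma rr_lb : (0.3819 : ℝ) < rr := by unfold rr; linarith [s5_ub]

lemma rr_ub : rr < (0.382 : ℝ) := by unfold rr; linarith [s5_lb]

lemma rr_pos : 0 < rr := by linarith [rr_lb]

/-- the diagonal weights `q m = (-1)^m φ^{-2m-2}` -/
noncomputable def qq (m : ℕ) : ℝ := (-1) ^ m * rr ^ (m + 1)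

/-- `eps N m = (-1)^{N+m} φ^{2(N-m-1)}` -/
noncomputable def eps (N m : ℕ) : ℝ := (-1) ^ N * (rr⁻¹) ^ N * qq m

lemma eps_ge (N j : ℕ) : eps N (N + j) = (-1) ^ j * rr ^ (j + 1) := by
  unfold eps qq
  have h1 : (-1 : ℝ) ^ N * (-1) ^ N = 1 := by
    rw [← mul_pow]; norm_num
  have h2 : (rr⁻¹) ^ N * rr ^ N = 1 := by
    rw [← mul_pow, inv_mul_cancel₀ rr_pos.ne', one_pow]
  calc (-1 : ℝ) ^ N * (rr⁻¹) ^ N * ((-1) ^ (N + j) * rr ^ (N + j + 1))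
      = ((-1 : ℝ) ^ N * (-1) ^ N) * ((rr⁻¹) ^ N * rr ^ N) * ((-1) ^ j * rr ^ (j + 1)) := by
        rw [pow_add, pow_add, pow_add]; ring
    _ = _ := by rw [h1, h2]; ring

lemma eps_lt (m j : ℕ) : eps (m + j + 1) m = (-1) ^ (j + 1) * (rr⁻¹) ^ j := by
  unfold eps qq
  have h1 : (-1 : ℝ) ^ m * (-1) ^ m = 1 := by
    rw [← mul_pow]; norm_num
  have h2 : (rr⁻¹) ^ (m + 1) * rr ^ (m + 1) = 1 := by
    rw [← mul_pow, inv_mul_cancel₀ rr_pos.ne', one_pow]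
  calc (-1 : ℝ) ^ (m + j + 1) * (rr⁻¹) ^ (m + j + 1) * ((-1) ^ m * rr ^ (m + 1))
      = ((-1 : ℝ) ^ m * (-1) ^ m) * ((rr⁻¹) ^ (m + 1) * rr ^ (m + 1)) *
          ((-1) ^ (j + 1) * (rr⁻¹) ^ j) := by ring
    _ = _ := by rw [h1, h2]; ring

/-- completing the square -/
lemma term_ineq (a b : ℂ) (e : ℝ) (he : e < 1) :
    -(e / (1 - e)) * ‖a‖ ^ 2 ≤ ‖b‖ ^ 2 - e * ‖a + b‖ ^ 2 := by
  have h1 : 0 < 1 - e := by linarith
  have key : (1 - e) * (‖b‖ ^ 2 - e * ‖a + b‖ ^ 2) + e * ‖a‖ ^ 2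
      = ‖((1 - e : ℝ) : ℂ) * b - (e : ℂ) * a‖ ^ 2 := by
    simp only [← Complex.normSq_eq_norm_sq, Complex.normSq_apply, Complex.add_re, Complex.add_im,
      Complex.sub_re, Complex.sub_im, Complex.mul_re, Complex.mul_im, Complex.ofReal_re,
      Complex.ofReal_im]
    ring
  have h2 : 0 ≤ (1 - e) * (‖b‖ ^ 2 - e * ‖a + b‖ ^ 2) + e * ‖a‖ ^ 2 := by
    rw [key]; positivity
  have h3 : -(e / (1 - e)) * ‖a‖ ^ 2 = (-(e * ‖a‖ ^ 2)) / (1 - e) := by ring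
  rw [h3, div_le_iff₀ h1]
  linarith

lemma riccati_step (x y : ℂ) (a : ℝ) (ha : -1 < a) :
    a / (1 + a) * ‖y‖ ^ 2 ≤ a * ‖x‖ ^ 2 + ‖y - x‖ ^ 2 := by
  have h1 : 0 < 1 + a := by linarith
  have key : (1 + a) * (a * ‖x‖ ^ 2 + ‖y - x‖ ^ 2) - a * ‖y‖ ^ 2
      = ‖((1 + a : ℝ) : ℂ) * x - y‖ ^ 2 := by
    simp only [← Complex.normSq_eq_norm_sq, Complex.normSq_apply,
      Complex.sub_re, Complex.sub_im, Complex.mul_re, Complex.mul_im, Complex.ofReal_re,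
      Complex.ofReal_im]
    ring
  have h2 : 0 ≤ (1 + a) * (a * ‖x‖ ^ 2 + ‖y - x‖ ^ 2) - a * ‖y‖ ^ 2 := by
    rw [key]; positivity
  have h3 : a / (1 + a) * ‖y‖ ^ 2 = (a * ‖y‖ ^ 2) / (1 + a) := by ring
  rw [h3, div_le_iff₀ h1]
  linarith

/-- one summand -/
noncomputable def tm (N : ℕ) (A B : ℕ → ℂ) (m : ℕ) : ℝ :=
  s5 * ((‖B m‖ ^ 2 - eps N m * ‖A m + B m‖ ^ 2) / (m + 1))

/-- the difference term -/
noncomputable def dd (A : ℕ → ℂ) : ℕ → ℝ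
  | 0 => ‖A 0‖ ^ 2
  | (m + 1) => ‖A (m + 1) - A m‖ ^ 2

lemma tm_ge (N : ℕ) (A B : ℕ → ℂ) (m : ℕ) (w : ℝ)
    (h : w * ‖A m‖ ^ 2 ≤ ‖B m‖ ^ 2 - eps N m * ‖A m + B m‖ ^ 2) :
    s5 * w / (m + 1) * ‖A m‖ ^ 2 ≤ tm N A B m := by
  unfold tm
  have h1 : (0 : ℝ) < m + 1 := by positivity
  have : s5 * w / (m + 1) * ‖A m‖ ^ 2 = s5 * ((w * ‖A m‖ ^ 2) / (m + 1)) := by ring
  rw [this]
  gcongr
  exact s5_pos.le

lemma tm_lt (N : ℕ) (A B : ℕ → ℂ) (hS : ∀ m < N, Even (m + N) → A m + B m = 0)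
    (m : ℕ) (hm : m < N) : s5 * (1 / 2) / (m + 1) * ‖A m‖ ^ 2 ≤ tm N A B m := by
  apply tm_ge
  by_cases hev : Even (m + N)
  · have h0 := hS m hm hev
    have hB : B m = - A m := by linear_combination h0
    rw [h0, hB, norm_neg, norm_zero]
    have : 0 ≤ ‖A m‖ ^ 2 := by positivity
    linarith
  · obtain ⟨j, rfl⟩ : ∃ j, N = m + j + 1 := ⟨N - m - 1, by omega⟩
    have hj : Even j := by
      rw [show m + (m + j + 1) = (2 * m + j) + 1 by ring, Nat.even_add_one, not_not] at hev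
      rw [Nat.even_add] at hev
      exact hev.mp (even_two_mul m)
    have he : eps (m + j + 1) m = - (rr⁻¹) ^ j := by
      rw [eps_lt, pow_succ, hj.neg_one_pow]; ring
    have h1 : 1 ≤ (rr⁻¹) ^ j := by
      apply one_le_pow₀
      rw [one_le_inv₀ rr_pos]; linarith [rr_ub]
    set E := (rr⁻¹) ^ j with hE
    have h2 := term_ineq (A m) (B m) (-E) (by linarith)
    rw [he]
    refine le_trans ?_ h2
    have h3 : (1 / 2 : ℝ) ≤ -(-E / (1 - -E)) := by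
      rw [sub_neg_eq_add, neg_div, neg_neg, div_le_div_iff₀ (by norm_num) (by linarith)]
      linarith
    exact mul_le_mul_of_nonneg_right h3 (by positivity)

lemma tm_even (N : ℕ) (A B : ℕ → ℂ) (i : ℕ) :
    s5 * (-(rr ^ (2 * i + 1) / (1 - rr ^ (2 * i + 1)))) / ((N + 2 * i : ℕ) + 1) *
      ‖A (N + 2 * i)‖ ^ 2 ≤ tm N A B (N + 2 * i) := by
  apply tm_ge
  have he : eps N (N + 2 * i) = rr ^ (2 * i + 1) := by
    rw [eps_ge, pow_mul]; norm_num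
  rw [he]
  apply term_ineq
  apply pow_lt_one₀ rr_pos.le (by linarith [rr_ub]) (by omega)

lemma tm_odd (N : ℕ) (A B : ℕ → ℂ) (i : ℕ) :
    s5 * (rr ^ (2 * i + 2) / (1 + rr ^ (2 * i + 2))) / ((N + (2 * i + 1) : ℕ) + 1) *
      ‖A (N + (2 * i + 1))‖ ^ 2 ≤ tm N A B (N + (2 * i + 1)) := by
  apply tm_ge
  have he : eps N (N + (2 * i + 1)) = - rr ^ (2 * i + 2) := by
    rw [eps_ge, pow_succ, pow_mul]; norm_num
  rw [he]
  have h0 : 0 < rr ^ (2 * i + 2) := pow_pos rr_pos _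
  have h := term_ineq (A (N + (2 * i + 1))) (B (N + (2 * i + 1))) (-rr ^ (2 * i + 2))
    (by linarith)
  refine le_trans (le_of_eq ?_) h
  rw [sub_neg_eq_add, neg_div, neg_neg]

/-- two-step inequality -/
lemma two_step (x y z : ℂ) (p q : ℝ) (hp : 0 ≤ p) (hq : q ≤ p / (1 + p)) :
    0 ≤ (‖y - x‖ ^ 2 + p * ‖y‖ ^ 2) + (‖z - y‖ ^ 2 + (-q) * ‖z‖ ^ 2) := by
  have h1 := riccati_step y z p (by linarith)
  have h2 : q * ‖z‖ ^ 2 ≤ p / (1 + p) * ‖z‖ ^ 2 :=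
    mul_le_mul_of_nonneg_right hq (by positivity)
  have h3 : 0 ≤ ‖y - x‖ ^ 2 := by positivity
  linarith

lemma pq_ineq (K : ℝ) (hK : 3 ≤ K) (R : ℝ) (hR0 : 0 < R) (hR : R ≤ rr ^ 2) :
    s5 * (R * rr / (1 - R * rr)) / (K + 1) ≤
      (s5 * (R / (1 + R)) / K) / (1 + s5 * (R / (1 + R)) / K) := by
  have h5 := s5_pos
  have h5u := s5_ub
  have hr := rr_pos
  have hru := rr_ub
  have hR2 : R ≤ 0.146 := by nlinarith
  have hRr : R * rr ≤ 0.056 := by nlinarith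
  have hRr0 : 0 < R * rr := by positivity
  have e1 : (s5 * (R / (1 + R)) / K) / (1 + s5 * (R / (1 + R)) / K)
      = s5 * R / ((1 + R) * K + s5 * R) := by
    have : (1 + R) ≠ 0 := by positivity
    have hK' : K ≠ 0 := by positivity
    have h3 : (1 + R) * K + s5 * R ≠ 0 := by positivity
    have h4 : 1 + s5 * (R / (1 + R)) / K ≠ 0 := by positivity
    field_simp
  have e2 : s5 * (R * rr / (1 - R * rr)) / (K + 1) = s5 * R * rr / ((1 - R * rr) * (K + 1)) := by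
    rw [mul_div_assoc', div_div]; ring_nf
  rw [e1, e2, div_le_div_iff₀ (by nlinarith) (by positivity)]
  have hs : s5 * R ≤ 0.33 := by nlinarith
  have h6 : rr * ((1 + R) * K + s5 * R) ≤ (1 - R * rr) * (K + 1) := by
    have a1 : (1 + R) * K + s5 * R ≤ 1.146 * K + 0.33 := by nlinarith
    have a2 : rr * ((1 + R) * K + s5 * R) ≤ 0.382 * (1.146 * K + 0.33) := by
      apply mul_le_mul hru.le a1 (by positivity) (by norm_num)
    have a3 : 0.944 * (K + 1) ≤ (1 - R * rr) * (K + 1) := by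
      apply mul_le_mul_of_nonneg_right _ (by linarith); linarith
    nlinarith
  have h7 : 0 ≤ s5 * R := by positivity
  calc s5 * R * rr * ((1 + R) * K + s5 * R) = s5 * R * (rr * ((1 + R) * K + s5 * R)) := by ring
    _ ≤ s5 * R * ((1 - R * rr) * (K + 1)) := mul_le_mul_of_nonneg_left h6 h7

/-- partial sums -/
noncomputable def SS (N : ℕ) (A B : ℕ → ℂ) (M : ℕ) : ℝ :=
  ∑ m ∈ range (M + 1), (dd A m + tm N A B m)

lemma SS_succ (N : ℕ) (A B : ℕ → ℂ) (M : ℕ) :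
    SS N A B (M + 1) = SS N A B M + (‖A (M + 1) - A M‖ ^ 2 + tm N A B (M + 1)) := by
  unfold SS
  rw [sum_range_succ]; rfl

lemma SS_zero (N : ℕ) (A B : ℕ → ℂ) : SS N A B 0 = ‖A 0‖ ^ 2 + tm N A B 0 := by
  unfold SS
  simp [dd]

lemma SS_step (N : ℕ) (A B : ℕ → ℂ) (i : ℕ) (hK : 3 ≤ N + 2 * i + 2)
    (h : 0 ≤ SS N A B (N + 2 * i)) : 0 ≤ SS N A B (N + 2 * (i + 1)) := by
  have e1 : N + 2 * (i + 1) = (N + 2 * i) + 1 + 1 := by ring
  rw [e1, SS_succ, SS_succ]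
  have h1 := tm_odd N A B i
  have h2 := tm_even N A B (i + 1)
  have e2 : N + (2 * i + 1) = N + 2 * i + 1 := by ring
  have e3 : N + 2 * (i + 1) = N + 2 * i + 1 + 1 := by ring
  rw [e2] at h1
  rw [e3] at h2
  have hR : rr ^ (2 * i + 2) ≤ rr ^ 2 :=
    pow_le_pow_of_le_one rr_pos.le (by linarith [rr_ub]) (by omega)
  have hKr : (3 : ℝ) ≤ ((N + 2 * i + 1 : ℕ) : ℝ) + 1 := by
    have : 3 ≤ (N + 2 * i + 1) + 1 := by omega
    exact_mod_cast this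
  have h3 := pq_ineq (((N + 2 * i + 1 : ℕ) : ℝ) + 1) hKr (rr ^ (2 * i + 2)) (pow_pos rr_pos _) hR
  have e4 : rr ^ (2 * i + 2) * rr = rr ^ (2 * (i + 1) + 1) := by ring
  rw [e4] at h3
  have hp : 0 ≤ s5 * (rr ^ (2 * i + 2) / (1 + rr ^ (2 * i + 2))) / (((N + 2 * i + 1 : ℕ) : ℝ) + 1) := by
    have := s5_pos
    have := rr_pos
    positivity
  have h4 := two_step (A (N + 2 * i)) (A (N + 2 * i + 1)) (A (N + 2 * i + 1 + 1)) _ _ hp h3
  have e5 : -(s5 * (rr ^ (2 * (i + 1) + 1) / (1 - rr ^ (2 * (i + 1) + 1))) /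
      (((N + 2 * i + 1 : ℕ) : ℝ) + 1 + 1)) =
      s5 * (-(rr ^ (2 * (i + 1) + 1) / (1 - rr ^ (2 * (i + 1) + 1)))) /
      (((N + 2 * i + 1 + 1 : ℕ) : ℝ) + 1) := by
    push_cast; ring
  rw [e5] at h4
  linarith

lemma phase_one (N : ℕ) (A B : ℕ → ℂ)
    (hS : ∀ m < N, Even (m + N) → A m + B m = 0) (m : ℕ) (hm : m < N) :
    2 / ((m : ℝ) + 1) * ‖A m‖ ^ 2 ≤ SS N A B m := by
  induction m with
  | zero =>
    rw [SS_zero]
    have h1 := tm_lt N A B hS 0 hm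
    have h2 := s5_lb
    have h3 : 0 ≤ ‖A 0‖ ^ 2 := by positivity
    norm_num at h1 ⊢
    nlinarith
  | succ m ih =>
    have ih := ih (by omega)
    rw [SS_succ]
    have h1 := tm_lt N A B hS (m + 1) hm
    have h2 := riccati_step (A m) (A (m + 1)) (2 / ((m : ℝ) + 1)) (by
      have : (0 : ℝ) < 2 / ((m : ℝ) + 1) := by positivity
      linarith)
    have h5 := s5_lb
    have e1 : (2 / ((m : ℝ) + 1)) / (1 + 2 / ((m : ℝ) + 1)) = 2 / ((m : ℝ) + 3) := by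
      have : (m : ℝ) + 1 ≠ 0 := by positivity
      have : (m : ℝ) + 3 ≠ 0 := by positivity
      have : 1 + 2 / ((m : ℝ) + 1) ≠ 0 := by positivity
      field_simp
      ring
    rw [e1] at h2
    have e2 : 2 / ((m : ℝ) + 2) ≤ 2 / ((m : ℝ) + 3) + s5 * (1 / 2) / ((m : ℝ) + 2) := by
      have h6 : (0 : ℝ) < (m : ℝ) + 2 := by positivity
      have h7 : (0 : ℝ) < (m : ℝ) + 3 := by positivity
      have hm0 : (0 : ℝ) ≤ (m : ℝ) := by positivity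
      rw [div_add_div _ _ h7.ne' h6.ne', div_le_div_iff₀ h6 (by positivity)]
      nlinarith [mul_nonneg hm0 hm0, mul_pos h6 h7]
    have h8 : 0 ≤ ‖A (m + 1)‖ ^ 2 := by positivity
    have e3 : (2 / ((m : ℝ) + 2)) * ‖A (m + 1)‖ ^ 2 ≤
        (2 / ((m : ℝ) + 3) + s5 * (1 / 2) / ((m : ℝ) + 2)) * ‖A (m + 1)‖ ^ 2 :=
      mul_le_mul_of_nonneg_right e2 h8
    push_cast at h1 ⊢
    have e4 : (m : ℝ) + 1 + 1 = (m : ℝ) + 2 := by ring
    rw [e4] at h1 ⊢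
    linarith

lemma rr_ratio : rr / (1 - rr) = (s5 - 1) / 2 := by
  have h1 : 1 - rr ≠ 0 := by
    have := rr_ub
    intro h; linarith
  rw [div_eq_iff h1]
  unfold rr
  nlinarith [s5_sq]

lemma SS_base (N : ℕ) (hN : 2 ≤ N) (A B : ℕ → ℂ)
    (hS : ∀ m < N, Even (m + N) → A m + B m = 0) : 0 ≤ SS N A B N := by
  obtain ⟨n, rfl⟩ : ∃ n, N = n + 1 := ⟨N - 1, by omega⟩
  rw [SS_succ]
  have h1 := phase_one (n + 1) A B hS n (by omega)
  have h2 := riccati_step (A n) (A (n + 1)) (2 / ((n : ℝ) + 1)) (by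
      have : (0 : ℝ) < 2 / ((n : ℝ) + 1) := by positivity
      linarith)
  have e1 : (2 / ((n : ℝ) + 1)) / (1 + 2 / ((n : ℝ) + 1)) = 2 / ((n : ℝ) + 3) := by
    have : (n : ℝ) + 1 ≠ 0 := by positivity
    have : (n : ℝ) + 3 ≠ 0 := by positivity
    have : 1 + 2 / ((n : ℝ) + 1) ≠ 0 := by positivity
    field_simp
    ring
  rw [e1] at h2
  have h3 := tm_even (n + 1) A B 0
  simp only [mul_zero, zero_add, pow_one, add_zero] at h3
  rw [rr_ratio] at h3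
  have h5 := s5_lb
  have h5u := s5_ub
  have hsq := s5_sq
  have hn : (1 : ℝ) ≤ n := by
    have : 1 ≤ n := by omega
    exact_mod_cast this
  have e2 : 0 ≤ 2 / ((n : ℝ) + 3) + s5 * (-((s5 - 1) / 2)) / (((n + 1 : ℕ) : ℝ) + 1) := by
    have e3 : s5 * (-((s5 - 1) / 2)) = - ((5 - s5) / 2) := by nlinarith
    rw [e3]
    push_cast
    have h6 : (0 : ℝ) < (n : ℝ) + 3 := by positivity
    have h7 : (0 : ℝ) < (n : ℝ) + 1 + 1 := by positivity
    rw [div_add_div _ _ h6.ne' h7.ne']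
    apply div_nonneg _ (by positivity)
    nlinarith
  have h8 : 0 ≤ ‖A (n + 1)‖ ^ 2 := by positivity
  have e4 := mul_nonneg e2 h8
  linarith

lemma one_s0 (n0 t0 : ℝ) (hn : 0 ≤ n0) (h0 : s5 * (1 / 2) / (0 + 1) * n0 ≤ t0) :
    2.118 * n0 ≤ n0 + t0 := by
  have h5 := s5_lb
  norm_num at h0 ⊢
  nlinarith

lemma one_s1 (n1 t1 P : ℝ) (hn : 0 ≤ n1)
    (h1 : s5 * (-((s5 - 1) / 2)) / (1 + 1) * n1 ≤ t1)
    (r0 : 2.118 / (1 + 2.118) * n1 ≤ P) : (-0.012) * n1 ≤ P + t1 := by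
  have h5 := s5_lb
  have hsq := s5_sq
  have e3 : s5 * (-((s5 - 1) / 2)) = - ((5 - s5) / 2) := by nlinarith
  rw [e3] at h1
  have e4 : (-0.012 : ℝ) ≤ 2.118 / (1 + 2.118) + -((5 - s5) / 2) / (1 + 1) := by
    norm_num
    linarith
  have := mul_le_mul_of_nonneg_right e4 hn
  linarith

lemma one_s2 (n2 t2 P : ℝ) (hn : 0 ≤ n2)
    (h2 : s5 * (rr ^ 2 / (1 + rr ^ 2)) / (2 + 1) * n2 ≤ t2)
    (r1 : -0.012 / (1 + -0.012) * n2 ≤ P) : 0.08 * n2 ≤ P + t2 := by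
  have h5 := s5_lb
  have e3 : (0.2844 : ℝ) ≤ s5 * (rr ^ 2 / (1 + rr ^ 2)) := by
    have hr := rr_lb
    have hr2 : (0.1458 : ℝ) ≤ rr ^ 2 := by nlinarith
    have hr3 : (0.1272 : ℝ) ≤ rr ^ 2 / (1 + rr ^ 2) := by
      rw [le_div_iff₀ (by positivity)]; nlinarith
    nlinarith
  have e4 : (0.08 : ℝ) ≤ -0.012 / (1 + -0.012) + s5 * (rr ^ 2 / (1 + rr ^ 2)) / (2 + 1) := by
    have : (0.0948 : ℝ) ≤ s5 * (rr ^ 2 / (1 + rr ^ 2)) / (2 + 1) := by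
      rw [le_div_iff₀ (by norm_num)]; linarith
    norm_num at this ⊢
    linarith
  have := mul_le_mul_of_nonneg_right e4 hn
  linarith

lemma one_s3 (n3 t3 P : ℝ) (hn : 0 ≤ n3)
    (h3 : s5 * (-(rr ^ 3 / (1 - rr ^ 3))) / (3 + 1) * n3 ≤ t3)
    (r2 : 0.08 / (1 + 0.08) * n3 ≤ P) : 0 ≤ P + t3 := by
  have h5 := s5_lb
  have h5u := s5_ub
  have e3 : (-0.034 : ℝ) ≤ s5 * (-(rr ^ 3 / (1 - rr ^ 3))) / (3 + 1) := by
    have hr := rr_ub
    have hr0 := rr_pos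
    have hr2 : rr ^ 3 ≤ 0.0558 := by
      have : rr ^ 3 ≤ 0.382 ^ 3 := pow_le_pow_left₀ hr0.le hr.le 3
      norm_num at this ⊢
      linarith
    have hr3 : rr ^ 3 / (1 - rr ^ 3) ≤ 0.0592 := by
      rw [div_le_iff₀ (by linarith)]; linarith
    rw [le_div_iff₀ (by norm_num)]
    nlinarith
  have e4 : (0 : ℝ) ≤ 0.08 / (1 + 0.08) + s5 * (-(rr ^ 3 / (1 - rr ^ 3))) / (3 + 1) := by
    norm_num at e3 ⊢
    linarith
  have := mul_nonneg e4 hn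
  linarith

lemma SS_one (A B : ℕ → ℂ) (hS : ∀ m < 1, Even (m + 1) → A m + B m = 0) :
    0 ≤ SS 1 A B 3 := by
  rw [show (3 : ℕ) = 0 + 1 + 1 + 1 by rfl, SS_succ, SS_succ, SS_succ, SS_zero]
  have h0 := tm_lt 1 A B hS 0 (by norm_num)
  have h1 := tm_even 1 A B 0
  have h2 := tm_odd 1 A B 0
  have h3 := tm_even 1 A B 1
  simp only [mul_zero, zero_add, pow_one, add_zero, mul_one, Nat.reduceAdd] at h0 h1 h2 h3 ⊢
  rw [rr_ratio] at h1
  push_cast at h0 h1 h2 h3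
  have s0 := one_s0 _ _ (by positivity) h0
  have r0 := riccati_step (A 0) (A 1) 2.118 (by norm_num)
  have s1 := one_s1 _ _ _ (by positivity) h1 r0
  have r1 := riccati_step (A 1) (A 2) (-0.012) (by norm_num)
  have s2 := one_s2 _ _ _ (by positivity) h2 r1
  have r2 := riccati_step (A 2) (A 3) 0.08 (by norm_num)
  have s3 := one_s3 _ _ _ (by positivity) h3 r2
  linarith

/-- **Main sequence inequality.** -/
theorem SS_nonneg (N : ℕ) (hN : 1 ≤ N) (A B : ℕ → ℂ)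
    (hS : ∀ m < N, Even (m + N) → A m + B m = 0) (k : ℕ) :
    0 ≤ SS N A B (N + 2 * (k + 1)) := by
  rcases Nat.lt_or_ge N 2 with h | h
  · obtain rfl : N = 1 := by omega
    induction k with
    | zero => exact SS_one A B hS
    | succ k ih => exact SS_step 1 A B (k + 1) (by omega) ih
  · have key : ∀ j : ℕ, 0 ≤ SS N A B (N + 2 * j) := by
      intro j
      induction j with
      | zero => exact SS_base N h A B hS
      | succ j ih => exact SS_step N A B j (by omega) ih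
    exact key (k + 1)

/-- Restatement: the finite sums of `eps` are dominated. -/
theorem seq_main (N : ℕ) (hN : 1 ≤ N) (A B : ℕ → ℂ)
    (hS : ∀ m < N, Even (m + N) → A m + B m = 0) (k : ℕ) :
    ∑ m ∈ range (N + 2 * (k + 1) + 1), eps N m * (‖A m + B m‖ ^ 2 / (m + 1)) ≤
      s5⁻¹ * ∑ m ∈ range (N + 2 * (k + 1) + 1), dd A m +
        ∑ m ∈ range (N + 2 * (k + 1) + 1), ‖B m‖ ^ 2 / (m + 1) := by
  have h := SS_nonneg N hN A B hS k
  unfold SS at h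
  generalize N + 2 * (k + 1) + 1 = M at h ⊢
  have e : ∑ m ∈ range M, (dd A m + tm N A B m) =
      s5 * (s5⁻¹ * ∑ m ∈ range M, dd A m +
        ∑ m ∈ range M, ‖B m‖ ^ 2 / ((m : ℝ) + 1) -
        ∑ m ∈ range M, eps N m * (‖A m + B m‖ ^ 2 / ((m : ℝ) + 1))) := by
    rw [sum_add_distrib]
    have e1 : ∑ m ∈ range M, tm N A B m = s5 * (∑ m ∈ range M, ‖B m‖ ^ 2 / ((m : ℝ) + 1) -
        ∑ m ∈ range M, eps N m * (‖A m + B m‖ ^ 2 / ((m : ℝ) + 1))) := by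
      rw [← sum_sub_distrib, mul_sum]
      apply sum_congr rfl
      intro m _
      unfold tm
      ring
    have h5 : s5 * s5⁻¹ = 1 := mul_inv_cancel₀ s5_pos.ne'
    rw [e1]
    linear_combination (-(∑ m ∈ range M, dd A m)) * h5
  rw [e] at h
  have h2 := nonneg_of_mul_nonneg_right h s5_pos
  linarith

end Pool.Agent.GKW
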