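import Pool.Agent.Lib.MP_b608a7_an.Forms2

set_option autoImplicit false

/-!
The variational argument: eigenvalues are simple, with the announced windows.
-/

namespace Pool.Agent.GKW

open Finset MeasureTheory Set Polynomial
open scoped InnerProductSpace ComplexConjugate

/-- membership in the closed span of the Laguerre functions -/
def InK (η : HH) : Prop := ∀ ξ : HH, (∀ m, ⟪lam m, ξ⟫_ℂ = 0) → ⟪η, ξ⟫_ℂ = 0

lemma InK_lam (m : ℕ) : InK (lam m) := fun _ h => h m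

lemma InK_zero : InK 0 := fun _ _ => inner_zero_left _

lemma InK_add {x y : HH} (hx : InK x) (hy : InK y) : InK (x + y) := fun ξ h => by
  rw [inner_add_left, hx ξ h, hy ξ h, add_zero]

lemma InK_smul {x : HH} (r : ℂ) (hx : InK x) : InK (r • x) := fun ξ h => by
  rw [inner_smul_left, hx ξ h, mul_zero]

lemma InK_sub {x y : HH} (hx : InK x) (hy : InK y) : InK (x - y) := fun ξ h => by
  rw [inner_sub_left, hx ξ h, hy ξ h, sub_zero]

lemma InK_tau (m : ℕ) : InK (tau m) := InK_sub (InK_lam _) (InK_lam _)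

lemma InK_sum {S : Finset ℕ} {x : ℕ → HH} (hx : ∀ m ∈ S, InK (x m)) :
    InK (∑ m ∈ S, x m) := fun ξ h => by
  rw [sum_inner]
  exact Finset.sum_eq_zero fun m hm => hx m hm ξ h

/-- eigenvector in the weak sense -/
def IsEig (l : ℂ) (x : HH) : Prop :=
  InK x ∧ ∀ η, InK η → l * ⟪η, mulOp gB x⟫_ℂ = ⟪η, bOp x⟫_ℂ

lemma IsEig_sub {l : ℂ} {x y : HH} (hx : IsEig l x) (hy : IsEig l y) (c : ℂ) :
    IsEig l (x - c • y) := by
  refine ⟨InK_sub hx.1 (InK_smul c hy.1), ?_⟩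
  intro η hη
  have h1 := hx.2 η hη
  have h2 := hy.2 η hη
  rw [map_sub, map_smul, map_sub, map_smul, inner_sub_right, inner_sub_right, inner_smul_right,
    inner_smul_right, ← h1, ← h2]
  ring

lemma eig_quad {l : ℂ} {x : HH} (hx : IsEig l x) : l * (GG x : ℂ) = (BB x : ℂ) := by
  have := hx.2 x hx.1
  rwa [inner_gB_self, inner_bOp_self] at this

lemma eig_real {l : ℂ} {x : HH} (hx : IsEig l x) (h0 : x ≠ 0) : ∃ r : ℝ, l = (r : ℂ) := by
  have h1 := eig_quad hx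
  have h2 := GG_pos x h0
  refine ⟨BB x / GG x, ?_⟩
  push_cast
  rw [eq_div_iff]
  · exact h1
  · exact_mod_cast h2.ne'

lemma TT_sum_tau (S : Finset ℕ) (x : ℕ → ℂ) (k : ℕ) :
    TT k (∑ m ∈ S, x m • tau m) = if k ∈ S then x k else 0 := by
  have : TT k (∑ m ∈ S, x m • tau m) = ∑ m ∈ S, x m * TT k (tau m) := by
    unfold TT
    rw [inner_sum]
    apply Finset.sum_congr rfl
    intro m _
    rw [inner_smul_right]
  rw [this]
  simp only [TT_tau, mul_ite, mul_one, mul_zero]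
  rw [Finset.sum_ite_eq]

lemma BB_sum_tau (S : Finset ℕ) (x : ℕ → ℂ) :
    BB (∑ m ∈ S, x m • tau m) = ∑ m ∈ S, qq m * (‖x m‖ ^ 2 / ((m : ℝ) + 1)) := by
  unfold BB
  simp only [TT_sum_tau]
  rw [tsum_eq_sum (s := S)]
  · apply Finset.sum_congr rfl
    intro m hm
    rw [if_pos hm]
  · intro m hm
    rw [if_neg hm]
    simp

theorem Zlem (N : ℕ) (hN : 1 ≤ N) (lr : ℝ) (x : HH) (hx : IsEig (lr : ℂ) x) (hx0 : x ≠ 0)
    (hsign : 0 < (-1) ^ N * lr) (hlow : rr ^ N ≤ |lr|)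
    (hS : ∀ m < N, Even (m + N) → TT m x ≠ 0 → |lr| < rr ^ (m + 1)) : False := by
  set S : Finset ℕ := (range N).filter (fun m => Even (m + N)) with hSdef
  set y : ℕ → ℂ := fun m => - TT m x with hy
  set v : HH := ∑ m ∈ S, y m • tau m with hv
  have hvK : InK v := InK_sum fun m _ => InK_smul _ (InK_tau m)
  set w : HH := x + v with hw
  set sg : ℝ := (-1) ^ N with hsg
  have hsg2 : sg * sg = 1 := by
    rw [hsg, ← mul_pow]; norm_num
  have habs : sg * lr = |lr| := by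
    rw [← abs_of_pos hsign, abs_mul, hsg, abs_pow]
    simp
  have memS : ∀ m, m ∈ S ↔ m < N ∧ Even (m + N) := by
    intro m
    rw [hSdef, Finset.mem_filter, Finset.mem_range]
  -- w satisfies the constraints
  have hwS : ∀ m < N, Even (m + N) → TT m w = 0 := by
    intro m hm he
    rw [hw, TT_add, hv, TT_sum_tau, if_pos ((memS m).mpr ⟨hm, he⟩), hy]
    simp
  -- Q vanishes against x
  have hQ : ∀ η, InK η → (sg : ℂ) * ⟪η, bOp x⟫_ℂ = ((|lr| : ℝ) : ℂ) * ⟪η, mulOp gB x⟫_ℂ := by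
    intro η hη
    rw [← hx.2 η hη, ← habs]
    push_cast
    ring
  have hQ' : ∀ η, InK η → (sg : ℂ) * ⟪x, bOp η⟫_ℂ = ((|lr| : ℝ) : ℂ) * ⟪x, mulOp gB η⟫_ℂ := by
    intro η hη
    have h1 := congrArg (starRingEnd ℂ) (hQ η hη)
    rw [map_mul, map_mul, Complex.conj_ofReal, Complex.conj_ofReal, inner_conj_symm,
      inner_conj_symm, bOp_symm, mulOp_symm] at h1
    exact h1
  have hQw : sg * BB w - |lr| * GG w = sg * BB v - |lr| * GG v := by
    have h1 : (sg : ℂ) * ⟪w, bOp w⟫_ℂ - ((|lr| : ℝ) : ℂ) * ⟪w, mulOp gB w⟫_ℂ =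
        (sg : ℂ) * ⟪v, bOp v⟫_ℂ - ((|lr| : ℝ) : ℂ) * ⟪v, mulOp gB v⟫_ℂ := by
      have a1 := hQ x hx.1
      have a2 := hQ v hvK
      have a3 := hQ' v hvK
      rw [hw, map_add, map_add, inner_add_left, inner_add_right, inner_add_right,
        inner_add_left, inner_add_right, inner_add_right]
      linear_combination a1 + a2 + a3
    rw [inner_bOp_self, inner_bOp_self, inner_gB_self, inner_gB_self] at h1
    exact_mod_cast h1
  -- lower bound for Q(v,v)
  have hGv : GG v ≤ ∑ m ∈ S, ‖y m‖ ^ 2 / ((m : ℝ) + 1) := F1 S y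
  have hBv : sg * BB v = ∑ m ∈ S, rr ^ (m + 1) * (‖y m‖ ^ 2 / ((m : ℝ) + 1)) := by
    rw [hv, BB_sum_tau, Finset.mul_sum]
    apply Finset.sum_congr rfl
    intro m hm
    obtain ⟨_, he⟩ := (memS m).mp hm
    have h1 : sg * qq m = rr ^ (m + 1) := by
      unfold qq
      rw [hsg, ← mul_assoc, ← pow_add, add_comm N m, he.neg_one_pow, one_mul]
    rw [← mul_assoc, h1]
  have hlow2 : ∑ m ∈ S, (rr ^ (m + 1) - |lr|) * (‖y m‖ ^ 2 / ((m : ℝ) + 1)) ≤
      sg * BB v - |lr| * GG v := by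
    have h1 : ∑ m ∈ S, (rr ^ (m + 1) - |lr|) * (‖y m‖ ^ 2 / ((m : ℝ) + 1)) =
        sg * BB v - |lr| * ∑ m ∈ S, ‖y m‖ ^ 2 / ((m : ℝ) + 1) := by
      rw [hBv, Finset.mul_sum, ← Finset.sum_sub_distrib]
      apply Finset.sum_congr rfl
      intro m _
      ring
    rw [h1]
    have := mul_le_mul_of_nonneg_left hGv (abs_nonneg lr)
    linarith
  have hterm : ∀ m ∈ S, 0 ≤ (rr ^ (m + 1) - |lr|) * (‖y m‖ ^ 2 / ((m : ℝ) + 1)) := by
    intro m hm
    obtain ⟨h1, h2⟩ := (memS m).mp hm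
    by_cases h0 : TT m x = 0
    · have : y m = 0 := by rw [hy]; simp [h0]
      rw [this]; simp
    · have := hS m h1 h2 h0
      have h3 : 0 ≤ rr ^ (m + 1) - |lr| := by linarith
      positivity
  have hsum0 : 0 ≤ ∑ m ∈ S, (rr ^ (m + 1) - |lr|) * (‖y m‖ ^ 2 / ((m : ℝ) + 1)) :=
    Finset.sum_nonneg hterm
  by_cases hw0 : w = 0
  · -- then some TT m x ≠ 0
    have hex : ∃ m ∈ S, TT m x ≠ 0 := by
      by_contra hcon
      push Not at hcon
      apply hx0
      have hv0 : v = 0 := by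
        rw [hv]
        apply Finset.sum_eq_zero
        intro m hm
        rw [hy]
        simp [hcon m hm]
      rw [hw, hv0, add_zero] at hw0
      exact hw0
    obtain ⟨m, hm, hne⟩ := hex
    obtain ⟨h1, h2⟩ := (memS m).mp hm
    have h3 := hS m h1 h2 hne
    have hpos : 0 < ∑ m ∈ S, (rr ^ (m + 1) - |lr|) * (‖y m‖ ^ 2 / ((m : ℝ) + 1)) := by
      apply Finset.sum_pos' hterm
      refine ⟨m, hm, ?_⟩
      have h4 : 0 < rr ^ (m + 1) - |lr| := by linarith
      have h5 : 0 < ‖y m‖ := by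
        rw [hy]
        simpa using hne
      positivity
    have hz : sg * BB w - |lr| * GG w = 0 := by
      rw [hw0]
      have a1 : BB 0 = 0 := by
        unfold BB
        simp only [TT_zero]
        simp
      have a2 : GG 0 = 0 := by
        have := inner_gB_self 0
        rw [inner_zero_left] at this
        exact_mod_cast this.symm
      rw [a1, a2]; ring
    linarith
  · have hF := F2 N hN w hw0 hwS
    have hG := GG_pos w hw0
    have hr : 0 < rr ^ N := pow_pos rr_pos N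
    have h1 : sg * BB w < rr ^ N * GG w := by
      have h2 := mul_lt_mul_of_pos_left hF hr
      have h3 : rr ^ N * (sg * rr⁻¹ ^ N * BB w) = sg * BB w := by
        have : rr ^ N * rr⁻¹ ^ N = 1 := by
          rw [← mul_pow, mul_inv_cancel₀ rr_pos.ne', one_pow]
        linear_combination (sg * BB w) * this
      rw [← hsg] at h2
      rw [h3] at h2
      exact h2
    have h4 : rr ^ N * GG w ≤ |lr| * GG w := mul_le_mul_of_nonneg_right hlow hG.le
    linarith

/-- existence of the window -/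
lemma exists_window (lr : ℝ) (h : lr ≠ 0) :
    ∃ n : ℕ, rr ^ (n + 1) ≤ |lr| ∧ ∀ m < n, |lr| < rr ^ (m + 1) := by
  classical
  have hpos : 0 < |lr| := abs_pos.mpr h
  have hex : ∃ n : ℕ, rr ^ (n + 1) ≤ |lr| := by
    obtain ⟨n, hn⟩ := exists_pow_lt_of_lt_one hpos rr_lt_one
    refine ⟨n, ?_⟩
    have : rr ^ (n + 1) ≤ rr ^ n := pow_le_pow_of_le_one rr_pos.le rr_lt_one.le (by omega)
    linarith
  refine ⟨Nat.find hex, Nat.find_spec hex, ?_⟩
  intro m hm
  have := Nat.find_min hex hm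
  linarith

lemma sign_of_window {lr : ℝ} {x : HH} (hx : IsEig (lr : ℂ) x) (hx0 : x ≠ 0) (h : lr ≠ 0)
    {n : ℕ} (h1 : rr ^ (n + 1) ≤ |lr|) (h2 : ∀ m < n, |lr| < rr ^ (m + 1)) :
    0 < (-1) ^ n * lr := by
  by_contra hcon
  have hne : (-1) ^ n * lr ≠ 0 := mul_ne_zero (pow_ne_zero _ (by norm_num)) h
  have hneg : (-1) ^ n * lr < 0 := lt_of_le_of_ne (not_lt.mp hcon) hne
  refine Zlem (n + 1) (by omega) lr x hx hx0 ?_ h1 ?_
  · rw [pow_succ]; linarith
  · intro m hm he _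
    apply h2 m
    rcases Nat.lt_or_ge m n with h3 | h3
    · exact h3
    · exfalso
      have : m = n := by omega
      subst this
      rw [← add_assoc, Nat.even_add_one] at he
      exact he ⟨m, rfl⟩

lemma zero_of_window {lr : ℝ} {x : HH} (hx : IsEig (lr : ℂ) x) (h : lr ≠ 0)
    {n : ℕ} (h1 : rr ^ (n + 1) ≤ |lr|) (h2 : ∀ m < n, |lr| < rr ^ (m + 1))
    (hT : TT n x = 0) : x = 0 := by
  by_contra hx0
  have hs := sign_of_window hx hx0 h h1 h2
  refine Zlem (n + 2) (by omega) lr x hx hx0 ?_ ?_ ?_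
  · rw [pow_add]; linarith
  · refine le_trans ?_ h1
    exact pow_le_pow_of_le_one rr_pos.le rr_lt_one.le (by omega)
  · intro m hm he hne
    apply h2 m
    rcases Nat.lt_or_ge m n with h3 | h3
    · exact h3
    · exfalso
      have h4 : m = n ∨ m = n + 1 := by omega
      rcases h4 with h4 | h4
      · subst h4; exact hne hT
      · subst h4
        have h5 : n + 1 + (n + 2) = (n + n + 2) + 1 := by ring
        rw [h5, Nat.even_add_one] at he
        apply he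
        exact ⟨n + 1, by ring⟩

/-- **Geometric simplicity.** -/
theorem eig_simple {l : ℂ} (hl : l ≠ 0) {x y : HH} (hx : IsEig l x) (hy : IsEig l y) :
    ∃ c : ℂ, x - c • y = 0 ∨ y - c • x = 0 := by
  by_cases hy0 : y = 0
  · exact ⟨0, Or.inr (by simp [hy0])⟩
  obtain ⟨lr, rfl⟩ := eig_real hy hy0
  have hlr : lr ≠ 0 := by exact_mod_cast hl
  obtain ⟨n, h1, h2⟩ := exists_window lr hlr
  have hT : TT n y ≠ 0 := fun h => hy0 (zero_of_window hy hlr h1 h2 h)
  refine ⟨TT n x / TT n y, Or.inl ?_⟩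
  apply zero_of_window (IsEig_sub hx hy _) hlr h1 h2
  have : TT n (x - (TT n x / TT n y) • y) = TT n x - (TT n x / TT n y) * TT n y := by
    unfold TT
    rw [inner_sub_right, inner_smul_right]
  rw [this, div_mul_cancel₀ _ hT, sub_self]

/-- **Distinct eigenvalues have distinct absolute values.** -/
theorem eig_abs {l μ : ℂ} (hl : l ≠ 0) (hμ : μ ≠ 0) {x y : HH} (hx : IsEig l x) (hx0 : x ≠ 0)
    (hy : IsEig μ y) (hy0 : y ≠ 0) (h : ‖l‖ = ‖μ‖) : l = μ := by
  obtain ⟨lr, rfl⟩ := eig_real hx hx0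
  obtain ⟨mr, rfl⟩ := eig_real hy hy0
  have hlr : lr ≠ 0 := by exact_mod_cast hl
  have hmr : mr ≠ 0 := by exact_mod_cast hμ
  rw [Complex.norm_real, Complex.norm_real, Real.norm_eq_abs, Real.norm_eq_abs] at h
  obtain ⟨n, h1, h2⟩ := exists_window lr hlr
  have s1 := sign_of_window hx hx0 hlr h1 h2
  rw [h] at h1 h2
  have s2 := sign_of_window hy hy0 hmr h1 h2
  rcases abs_eq_abs.mp h with h3 | h3
  · rw [h3]
  · exfalso
    rw [h3] at s1
    linarith

/-- **Generalised eigenvectors are eigenvectors.** -/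
theorem chain_zero {l : ℂ} (x : ℕ → HH) (hK : ∀ i, InK (x i))
    (hrel : ∀ i η, InK η → l * ⟪η, mulOp gB (x i)⟫_ℂ + ⟪η, mulOp gB (x (i + 1))⟫_ℂ =
      ⟪η, bOp (x i)⟫_ℂ) (k : ℕ) (hk : x (k + 1) = 0) : x 1 = 0 := by
  have step : ∀ i, x (i + 2) = 0 → x (i + 1) = 0 := by
    intro i hi
    by_contra hne
    have hE : IsEig l (x (i + 1)) := by
      refine ⟨hK _, ?_⟩
      intro η hη
      have := hrel (i + 1) η hη
      rw [show i + 1 + 1 = i + 2 by ring, hi, map_zero, inner_zero_right, add_zero] at this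
      exact this
    obtain ⟨lr, rfl⟩ := eig_real hE hne
    have h1 := hrel i (x (i + 1)) (hK _)
    have h2 := congrArg (starRingEnd ℂ) (hE.2 (x i) (hK _))
    rw [map_mul, Complex.conj_ofReal, inner_conj_symm, inner_conj_symm, bOp_symm,
      mulOp_symm] at h2
    rw [← h2, add_eq_left, inner_gB_self] at h1
    have h3 := GG_pos _ hne
    have h4 : GG (x (i + 1)) = 0 := by exact_mod_cast h1
    linarith
  induction k with
  | zero => exact hk
  | succ k ih => exact ih (step k hk)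

/-! ### the weak form of the transfer relation -/

/-- if all `⟪tau m, ξ⟫` vanish then all `⟪lam m, ξ⟫` vanish -/
lemma lam_of_tau (ξ : HH) (h : ∀ m, ⟪tau m, ξ⟫_ℂ = 0) (m : ℕ) : ⟪lam m, ξ⟫_ℂ = 0 := by
  have h1 : ∀ m, ⟪lam m, ξ⟫_ℂ = ⟪lam 0, ξ⟫_ℂ := by
    intro m
    induction m with
    | zero => rfl
    | succ m ih =>
      have := h m
      unfold tau at this
      rw [inner_sub_left, sub_eq_zero] at this
      rw [← this, ih]
  have h2 : ∀ n : ℕ, (n : ℝ) * ‖⟪lam 0, ξ⟫_ℂ‖ ^ 2 ≤ ‖ξ‖ ^ 2 := by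
    intro n
    have := Bessel_lam ξ n
    simp only [h1] at this
    simpa using this
  have h3 : ‖⟪lam 0, ξ⟫_ℂ‖ ^ 2 = 0 := by
    by_contra hne
    have hpos : 0 < ‖⟪lam 0, ξ⟫_ℂ‖ ^ 2 := lt_of_le_of_ne (by positivity) (Ne.symm hne)
    obtain ⟨n, hn⟩ := exists_nat_gt (‖ξ‖ ^ 2 / ‖⟪lam 0, ξ⟫_ℂ‖ ^ 2)
    rw [div_lt_iff₀ hpos] at hn
    linarith [h2 n]
  rw [h1]
  have := pow_eq_zero_iff (two_ne_zero) |>.mp h3
  exact norm_eq_zero.mp this

lemma inner_tau_gB (m : ℕ) (x : HH) :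
    ⟪tau m, mulOp gB x⟫_ℂ = ((((m : ℝ) + 1)⁻¹ : ℝ) : ℂ) * ⟪Lam m, mulOp e1B x⟫_ℂ := by
  have h1 : ((((m : ℝ) + 1)⁻¹ : ℝ) : ℂ) * ⟪Lam m, mulOp e1B x⟫_ℂ =
      ⟪pv (Polynomial.C ((m : ℝ) + 1)⁻¹ * SP m) (1 / 2) half_pos', mulOp e1B x⟫_ℂ := by
    have h2 : pv (Polynomial.C ((m : ℝ) + 1)⁻¹ * SP m) (1 / 2) half_pos' =
        ((((m : ℝ) + 1)⁻¹ : ℝ) : ℂ) • Lam m := by
      unfold Lam pv
      apply vec_smul
      intro u _
      rw [eval_mul, eval_C]
      ring
    rw [h2, inner_smul_left, Complex.conj_ofReal]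
  rw [h1, tau_eq]
  unfold pv
  apply inner_vec_mul_congr
  intro u hu
  change _ * ((1 - Real.exp (-cc * u)) / u) = _ * (1 - Real.exp (-cc * u))
  simp only [eval_mul, eval_C, eval_X]
  have : u ≠ 0 := hu.ne'
  field_simp

/-- from the values on the `Lam m` to the weak relation -/
theorem weak_rel {x y : HH} (h : ∀ m, ⟪Lam m, mulOp e1B x⟫_ℂ = (qq m : ℂ) * TT m y) :
    ∀ η, InK η → ⟪η, mulOp gB x⟫_ℂ = ⟪η, bOp y⟫_ℂ := by
  intro η hη
  have h1 : ∀ m, ⟪tau m, mulOp gB x - bOp y⟫_ℂ = 0 := by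
    intro m
    rw [inner_sub_right, inner_tau_gB, inner_tau_bOp, h]
    push_cast
    ring
  have h2 := hη _ (lam_of_tau _ h1)
  rw [inner_sub_right, sub_eq_zero] at h2
  exact h2

end Pool.Agent.GKW
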