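import Pool.Agent.Lib.MP_b608a7_an.Power

set_option autoImplicit false

/-!
The transfer operator, its action on the half plane, and the link with `L²(0,∞)`.
-/

namespace Pool.Agent.GKW

open Finset MeasureTheory Set
open scoped InnerProductSpace ComplexConjugate

/-- golden ratio -/
noncomputable def ph : ℝ := (1 + s5) / 2

lemma ph_pos : 0 < ph := by unfold ph; linarith [s5_pos]

/-- the half plane `Re x > -1/2` -/
def PP : Set ℂ := {x | -(1 / 2 : ℝ) < x.re}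

/-- the disc of the problem -/
def UU : Set ℂ := Metric.ball (1 : ℂ) (3 / 2 : ℝ)

lemma isOpen_PP : IsOpen PP := isOpen_lt continuous_const Complex.continuous_re

lemma UU_subset_PP : UU ⊆ PP := by
  intro x hx
  unfold UU at hx
  rw [Metric.mem_ball, dist_eq_norm] at hx
  have h1 := Complex.abs_re_le_norm (x - 1)
  rw [Complex.sub_re, Complex.one_re] at h1
  have h2 := (abs_le.mp h1).1
  change -(1 / 2 : ℝ) < x.re
  linarith

lemma ball_subset_UU : Metric.ball (1 : ℂ) 1 ⊆ UU := Metric.ball_subset_ball (by norm_num)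

lemma closedBall_subset_UU : Metric.closedBall (1 : ℂ) 1 ⊆ UU :=
  Metric.closedBall_subset_ball (by norm_num)

/-- the Gauss-Kuzmin-Wirsing operator -/
noncomputable def Lop (h : ℂ → ℂ) (x : ℂ) : ℂ :=
  ∑' m : ℕ, ((x + ((m : ℂ) + 1)) ^ 2)⁻¹ * h (1 / (x + ((m : ℂ) + 1)))

lemma re_add (x : ℂ) (m : ℕ) : (x + ((m : ℂ) + 1)).re = x.re + m + 1 := by
  simp; ring

lemma ne_of_PP {x : ℂ} (hx : x ∈ PP) (m : ℕ) : x + ((m : ℂ) + 1) ≠ 0 := by
  intro h
  have h1 := congrArg Complex.re h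
  rw [re_add, Complex.zero_re] at h1
  have h2 : -(1 / 2 : ℝ) < x.re := hx
  have h3 : (0 : ℝ) ≤ m := Nat.cast_nonneg m
  linarith

lemma inv_mem {x : ℂ} (hx : x ∈ PP) (m : ℕ) :
    1 / (x + ((m : ℂ) + 1)) ∈ Metric.ball (1 : ℂ) 1 := by
  have hne := ne_of_PP hx m
  have hre := re_add x m
  set w := x + ((m : ℂ) + 1) with hw
  have h2 : -(1 / 2 : ℝ) < x.re := hx
  have h3 : (0 : ℝ) ≤ m := Nat.cast_nonneg m
  have hwre : 1 / 2 < w.re := by rw [hre]; linarith
  rw [Metric.mem_ball, dist_eq_norm]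
  have h4 : 1 / w - 1 = (1 - w) / w := by field_simp
  rw [h4, norm_div, div_lt_one (norm_pos_iff.mpr hne)]
  rw [← sq_lt_sq₀ (norm_nonneg _) (norm_nonneg _), ← Complex.normSq_eq_norm_sq,
    ← Complex.normSq_eq_norm_sq, Complex.normSq_apply, Complex.normSq_apply]
  simp only [Complex.sub_re, Complex.one_re, Complex.sub_im, Complex.one_im]
  nlinarith

/-- kernel bound -/
lemma kernel_bound {x : ℂ} (hx : x ∈ PP) (m : ℕ) :
    ‖((x + ((m : ℂ) + 1)) ^ 2)⁻¹‖ ≤ 2 / (‖x + 1 / 2‖ + m + 1 / 2) ^ 2 := by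
  have hre := re_add x m
  have h2 : -(1 / 2 : ℝ) < x.re := hx
  have h3 : (0 : ℝ) ≤ m := Nat.cast_nonneg m
  set X := ‖x + 1 / 2‖ with hX
  have hX0 : 0 ≤ X := norm_nonneg _
  have hX2 : X ^ 2 = (x.re + 1 / 2) ^ 2 + x.im ^ 2 := by
    rw [hX, ← Complex.normSq_eq_norm_sq, Complex.normSq_apply]
    have e1 : (x + 1 / 2).re = x.re + 1 / 2 := by
      rw [Complex.add_re]; congr 1; norm_num
    have e2 : (x + 1 / 2).im = x.im := by
      rw [Complex.add_im]; norm_num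
    rw [e1, e2]; ring
  have h4 : X ^ 2 + ((m : ℝ) + 1 / 2) ^ 2 ≤ ‖x + ((m : ℂ) + 1)‖ ^ 2 := by
    have e2 : (x + ((m : ℂ) + 1)).im = x.im := by simp
    rw [hX2, ← Complex.normSq_eq_norm_sq, Complex.normSq_apply, hre, e2]
    nlinarith [mul_nonneg (by linarith : (0 : ℝ) ≤ x.re + 1 / 2) (by linarith : (0 : ℝ) ≤ (m : ℝ) + 1 / 2)]
  rw [norm_inv, norm_pow]
  have h5 : (X + m + 1 / 2) ^ 2 / 2 ≤ ‖x + ((m : ℂ) + 1)‖ ^ 2 := by
    refine le_trans ?_ h4
    nlinarith [sq_nonneg (X - ((m : ℝ) + 1 / 2))]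
  have h6 : 0 < (X + m + 1 / 2) ^ 2 / 2 := by positivity
  calc (‖x + ((m : ℂ) + 1)‖ ^ 2)⁻¹ ≤ ((X + m + 1 / 2) ^ 2 / 2)⁻¹ := inv_anti₀ h6 h5
    _ = 2 / (X + m + 1 / 2) ^ 2 := by rw [inv_div]

lemma hasSum_tele (a : ℝ) (ha : 0 ≤ a) :
    HasSum (fun m : ℕ => 1 / (a + m + 1 / 2) - 1 / (a + (m + 1 : ℕ) + 1 / 2)) (1 / (a + 1 / 2)) := by
  rw [hasSum_iff_tendsto_nat_of_nonneg]
  · have h1 : ∀ n : ℕ, ∑ m ∈ range n, (1 / (a + m + 1 / 2) - 1 / (a + (m + 1 : ℕ) + 1 / 2)) =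
        1 / (a + 1 / 2) - 1 / (a + n + 1 / 2) := by
      intro n
      rw [Finset.sum_range_sub' (fun m : ℕ => 1 / (a + m + 1 / 2))]
      simp
    simp only [h1]
    have h2 : Filter.Tendsto (fun n : ℕ => 1 / (a + n + 1 / 2)) Filter.atTop (nhds 0) := by
      have h3 : Filter.Tendsto (fun n : ℕ => a + (n : ℝ) + 1 / 2) Filter.atTop Filter.atTop := by
        apply Filter.tendsto_atTop_add_const_right
        apply Filter.tendsto_atTop_add_const_left
        exact tendsto_natCast_atTop_atTop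
      refine h3.inv_tendsto_atTop.congr (fun n => ?_)
      simp only [Pi.inv_apply, one_div]
    have h4 := h2.const_sub (1 / (a + 1 / 2))
    rwa [sub_zero] at h4
  · intro m
    rw [sub_nonneg]
    apply one_div_le_one_div_of_le (by positivity)
    push_cast
    linarith

lemma sq_le_tele (a : ℝ) (ha : 0 ≤ a) (m : ℕ) :
    2 / (a + m + 1 / 2) ^ 2 ≤ 6 * (1 / (a + m + 1 / 2) - 1 / (a + (m + 1 : ℕ) + 1 / 2)) := by
  have h0 : (0 : ℝ) ≤ m := Nat.cast_nonneg m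
  set b : ℝ := a + m + 1 / 2 with hb
  have hb0 : 1 / 2 ≤ b := by rw [hb]; linarith
  have e : a + (m + 1 : ℕ) + 1 / 2 = b + 1 := by rw [hb]; push_cast; ring
  rw [e]
  have hbp : 0 < b := by linarith
  have h1 : 6 * (1 / b - 1 / (b + 1)) = 6 / (b * (b + 1)) := by field_simp; ring
  rw [h1, div_le_div_iff₀ (by positivity) (by positivity)]
  nlinarith

lemma term_bound {h : ℂ → ℂ} {M : ℝ} (hM : ∀ y ∈ Metric.ball (1 : ℂ) 1, ‖h y‖ ≤ M)
    {x : ℂ} (hx : x ∈ PP) (m : ℕ) :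
    ‖((x + ((m : ℂ) + 1)) ^ 2)⁻¹ * h (1 / (x + ((m : ℂ) + 1)))‖ ≤
      6 * M * (1 / (‖x + 1 / 2‖ + m + 1 / 2) - 1 / (‖x + 1 / 2‖ + (m + 1 : ℕ) + 1 / 2)) := by
  have hM0 : 0 ≤ M := (norm_nonneg _).trans (hM 1 (Metric.mem_ball_self one_pos))
  rw [norm_mul]
  have h1 := kernel_bound hx m
  have h2 := hM _ (inv_mem hx m)
  have h3 := sq_le_tele ‖x + 1 / 2‖ (norm_nonneg _) m
  have h4 : 0 ≤ 1 / (‖x + 1 / 2‖ + m + 1 / 2) - 1 / (‖x + 1 / 2‖ + (m + 1 : ℕ) + 1 / 2) := by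
    have : 0 ≤ 2 / (‖x + 1 / 2‖ + (m : ℝ) + 1 / 2) ^ 2 := by positivity
    linarith
  calc _ ≤ (6 * (1 / (‖x + 1 / 2‖ + m + 1 / 2) - 1 / (‖x + 1 / 2‖ + (m + 1 : ℕ) + 1 / 2))) * M :=
        mul_le_mul (h1.trans h3) h2 (norm_nonneg _) (by positivity)
    _ = _ := by ring

lemma summable_term {h : ℂ → ℂ} {M : ℝ} (hM : ∀ y ∈ Metric.ball (1 : ℂ) 1, ‖h y‖ ≤ M)
    {x : ℂ} (hx : x ∈ PP) :
    Summable (fun m : ℕ => ((x + ((m : ℂ) + 1)) ^ 2)⁻¹ * h (1 / (x + ((m : ℂ) + 1)))) :=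
  Summable.of_norm_bounded ((hasSum_tele _ (norm_nonneg _)).summable.mul_left _)
    (fun m => term_bound hM hx m)

lemma Lop_bound {h : ℂ → ℂ} {M : ℝ} (hM : ∀ y ∈ Metric.ball (1 : ℂ) 1, ‖h y‖ ≤ M)
    {x : ℂ} (hx : x ∈ PP) : ‖Lop h x‖ ≤ 6 * M * (1 / (‖x + 1 / 2‖ + 1 / 2)) :=
  tsum_of_norm_bounded ((hasSum_tele _ (norm_nonneg _)).mul_left _)
    (fun m => term_bound hM hx m)

lemma Lop_decay {h : ℂ → ℂ} {M : ℝ} (hM : ∀ y ∈ Metric.ball (1 : ℂ) 1, ‖h y‖ ≤ M)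
    {x : ℂ} (hx : x ∈ PP) : ‖(x + ph) * Lop h x‖ ≤ 18 * M := by
  have hM0 : 0 ≤ M := (norm_nonneg _).trans (hM 1 (Metric.mem_ball_self one_pos))
  have h1 := Lop_bound hM hx
  have h2 : ‖x + ph‖ ≤ ‖x + 1 / 2‖ + 3 / 2 := by
    have e : x + (ph : ℂ) = (x + 1 / 2) + ((s5 / 2 : ℝ) : ℂ) := by
      unfold ph; push_cast; ring
    rw [e]
    refine (norm_add_le _ _).trans ?_
    rw [Complex.norm_real, Real.norm_eq_abs, abs_of_pos (by linarith [s5_pos])]
    linarith [s5_ub]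
  rw [norm_mul]
  have hX := norm_nonneg (x + 1 / 2)
  calc ‖x + ph‖ * ‖Lop h x‖ ≤ (‖x + 1 / 2‖ + 3 / 2) * (6 * M * (1 / (‖x + 1 / 2‖ + 1 / 2))) :=
        mul_le_mul h2 h1 (norm_nonneg _) (by positivity)
    _ = 6 * M * ((‖x + 1 / 2‖ + 3 / 2) / (‖x + 1 / 2‖ + 1 / 2)) := by ring
    _ ≤ 6 * M * 3 := by
        apply mul_le_mul_of_nonneg_left _ (by positivity)
        rw [div_le_iff₀ (by positivity)]
        linarith
    _ = 18 * M := by ring

lemma exists_bound {h : ℂ → ℂ} (hh : DifferentiableOn ℂ h UU) :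
    ∃ M : ℝ, ∀ y ∈ Metric.ball (1 : ℂ) 1, ‖h y‖ ≤ M := by
  have hc : ContinuousOn h (Metric.closedBall (1 : ℂ) 1) :=
    hh.continuousOn.mono closedBall_subset_UU
  obtain ⟨M, hM⟩ := (isCompact_closedBall (1 : ℂ) 1).exists_bound_of_continuousOn hc
  exact ⟨M, fun y hy => hM y (Metric.ball_subset_closedBall hy)⟩

lemma Lop_diff {h : ℂ → ℂ} (hh : DifferentiableOn ℂ h UU) : DifferentiableOn ℂ (Lop h) PP := by
  obtain ⟨M, hM⟩ := exists_bound hh
  have hM0 : 0 ≤ M := (norm_nonneg _).trans (hM 1 (Metric.mem_ball_self one_pos))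
  apply Complex.differentiableOn_tsum_of_summable_norm
    (u := fun m : ℕ => 6 * M * (1 / ((0 : ℝ) + m + 1 / 2) - 1 / ((0 : ℝ) + (m + 1 : ℕ) + 1 / 2)))
    ((hasSum_tele 0 le_rfl).summable.mul_left _) _ isOpen_PP
  · intro m x hx
    have h1 := kernel_bound hx m
    have h2 := hM _ (inv_mem hx m)
    have h3 := sq_le_tele 0 le_rfl m
    have h4 : 2 / (‖x + 1 / 2‖ + m + 1 / 2) ^ 2 ≤ 2 / ((0 : ℝ) + m + 1 / 2) ^ 2 := by
      have := norm_nonneg (x + 1 / 2)
      gcongr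
    rw [norm_mul]
    have h5 : 0 ≤ 1 / ((0 : ℝ) + m + 1 / 2) - 1 / ((0 : ℝ) + (m + 1 : ℕ) + 1 / 2) := by
      have : 0 ≤ 2 / ((0 : ℝ) + m + 1 / 2) ^ 2 := by positivity
      linarith
    calc _ ≤ (6 * (1 / ((0 : ℝ) + m + 1 / 2) - 1 / ((0 : ℝ) + (m + 1 : ℕ) + 1 / 2))) * M :=
          mul_le_mul (h1.trans (h4.trans h3)) h2 (norm_nonneg _) (by positivity)
      _ = _ := by ring
  · intro m
    have hne : ∀ x ∈ PP, x + ((m : ℂ) + 1) ≠ 0 := fun x hx => ne_of_PP hx m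
    apply DifferentiableOn.mul
    · apply DifferentiableOn.inv
      · fun_prop
      · intro x hx
        exact pow_ne_zero 2 (hne x hx)
    · apply DifferentiableOn.comp (t := UU) hh
      · apply DifferentiableOn.div (by fun_prop) (by fun_prop) hne
      · intro x hx
        exact ball_subset_UU (inv_mem hx m)

lemma Lop_tele {h : ℂ → ℂ} (hh : DifferentiableOn ℂ h UU) {x : ℂ} (hx : x ∈ PP) :
    Lop h x - Lop h (x + 1) = ((x + 1) ^ 2)⁻¹ * h (1 / (x + 1)) := by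
  obtain ⟨M, hM⟩ := exists_bound hh
  have h1 := (summable_term hM hx).tsum_eq_zero_add
  have h2 : Lop h (x + 1) = ∑' m : ℕ, ((x + (((m + 1 : ℕ) : ℂ) + 1)) ^ 2)⁻¹ *
      h (1 / (x + (((m + 1 : ℕ) : ℂ) + 1))) := by
    unfold Lop
    apply tsum_congr
    intro m
    have : x + 1 + ((m : ℂ) + 1) = x + (((m + 1 : ℕ) : ℂ) + 1) := by push_cast; ring
    rw [this]
  rw [h2]
  unfold Lop
  rw [h1]
  simp

lemma Lop_congr {h h' : ℂ → ℂ} (he : ∀ y ∈ UU, h y = h' y) {x : ℂ} (hx : x ∈ PP) :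
    Lop h x = Lop h' x := by
  unfold Lop
  apply tsum_congr
  intro m
  rw [he _ (ball_subset_UU (inv_mem hx m))]

/-- good functions on the half plane -/
def Good (F : ℂ → ℂ) : Prop :=
  DifferentiableOn ℂ F PP ∧ ∃ M : ℝ, ∀ x ∈ PP, ‖(x + ph) * F x‖ ≤ M

lemma Good_Lop {h : ℂ → ℂ} (hh : DifferentiableOn ℂ h UU) : Good (Lop h) := by
  obtain ⟨M, hM⟩ := exists_bound hh
  exact ⟨Lop_diff hh, 18 * M, fun x hx => Lop_decay hM hx⟩

lemma Good_comb {F G : ℂ → ℂ} (hF : Good F) (hG : Good G) (a b : ℂ) :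
    Good (fun x => a * F x + b * G x) := by
  obtain ⟨hF1, M1, hM1⟩ := hF
  obtain ⟨hG1, M2, hM2⟩ := hG
  refine ⟨(hF1.const_mul a).add (hG1.const_mul b), ‖a‖ * M1 + ‖b‖ * M2, ?_⟩
  intro x hx
  have e : (x + ph) * (a * F x + b * G x) = a * ((x + ph) * F x) + b * ((x + ph) * G x) := by ring
  rw [e]
  refine (norm_add_le _ _).trans ?_
  rw [norm_mul a, norm_mul b]
  exact add_le_add (mul_le_mul_of_nonneg_left (hM1 x hx) (norm_nonneg _))
    (mul_le_mul_of_nonneg_left (hM2 x hx) (norm_nonneg _))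

lemma Good_zero : Good (fun _ => 0) := by
  refine ⟨differentiableOn_const 0, 0, ?_⟩
  intro x _
  simp

/-! ### disc coordinates -/

/-- the function in the disc coordinate -/
noncomputable def gt (f : ℂ → ℂ) (z : ℂ) : ℂ := ((s5 : ℂ) / (1 - z)) * f ((s5 : ℂ) / (1 - z) - (ph : ℂ))

lemma one_sub_ne {z : ℂ} (hz : ‖z‖ < 1) : 1 - z ≠ 0 := by
  intro h
  have : z = 1 := by linear_combination -h
  rw [this, norm_one] at hz
  exact lt_irrefl _ hz

lemma disc_to_PP {z : ℂ} (hz : ‖z‖ < 1) : (s5 : ℂ) / (1 - z) - (ph : ℂ) ∈ PP := by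
  have hne := one_sub_ne hz
  change -(1 / 2 : ℝ) < ((s5 : ℂ) / (1 - z) - (ph : ℂ)).re
  rw [Complex.sub_re, Complex.ofReal_re]
  have h1 : ((s5 : ℂ) / (1 - z)).re = s5 * ((1 - z.re) / Complex.normSq (1 - z)) := by
    rw [Complex.div_re]
    simp
    ring
  have hn : 0 < Complex.normSq (1 - z) := Complex.normSq_pos.mpr hne
  have h2 : Complex.normSq (1 - z) < 2 * (1 - z.re) := by
    have h3 : ‖z‖ ^ 2 < 1 := by
      have := norm_nonneg z
      nlinarith
    rw [← Complex.normSq_eq_norm_sq, Complex.normSq_apply] at h3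
    rw [Complex.normSq_apply]
    simp only [Complex.sub_re, Complex.one_re, Complex.sub_im, Complex.one_im]
    nlinarith
  have h3 : 1 / 2 < (1 - z.re) / Complex.normSq (1 - z) := by
    rw [lt_div_iff₀ hn]; linarith
  rw [h1]
  unfold ph
  have := mul_lt_mul_of_pos_left h3 s5_pos
  linarith

lemma ph_add_ne {x : ℂ} (hx : x ∈ PP) : x + (ph : ℂ) ≠ 0 := by
  intro h
  have h1 := congrArg Complex.re h
  rw [Complex.add_re, Complex.ofReal_re, Complex.zero_re] at h1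
  have h2 : -(1 / 2 : ℝ) < x.re := hx
  unfold ph at h1
  linarith [s5_pos]

lemma PP_to_disc {x : ℂ} (hx : x ∈ PP) : ‖1 - (s5 : ℂ) / (x + ph)‖ < 1 := by
  have hne := ph_add_ne hx
  have h2 : -(1 / 2 : ℝ) < x.re := hx
  have e : 1 - (s5 : ℂ) / (x + ph) = (x + ph - s5) / (x + ph) := by field_simp
  rw [e, norm_div, div_lt_one (norm_pos_iff.mpr hne),
    ← sq_lt_sq₀ (norm_nonneg _) (norm_nonneg _), ← Complex.normSq_eq_norm_sq,
    ← Complex.normSq_eq_norm_sq, Complex.normSq_apply, Complex.normSq_apply]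
  simp only [Complex.sub_re, Complex.sub_im, Complex.add_re, Complex.add_im, Complex.ofReal_re,
    Complex.ofReal_im]
  have h5 := s5_pos
  have h6 : s5 / 2 < x.re + ph := by unfold ph; linarith
  nlinarith [mul_lt_mul_of_pos_left h6 h5]

lemma gt_at {f : ℂ → ℂ} {x : ℂ} (hx : x ∈ PP) :
    gt f (1 - (s5 : ℂ) / (x + ph)) = (x + ph) * f x := by
  have hne := ph_add_ne hx
  have h5 : (s5 : ℂ) ≠ 0 := by exact_mod_cast s5_pos.ne'
  unfold gt
  have e : (s5 : ℂ) / (1 - (1 - (s5 : ℂ) / (x + ph))) = x + ph := by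
    rw [sub_sub_cancel, div_div_eq_mul_div, mul_comm, mul_div_assoc, div_self h5, mul_one]
  rw [e]
  congr 2
  ring

/-- representation of a function by a vector -/
def IsRep (f : ℂ → ℂ) (x : HH) : Prop :=
  InK x ∧ ∀ z : ℂ, ‖z‖ < 1 → HasSum (fun j : ℕ => z ^ j * ⟪lam j, x⟫_ℂ) (gt f z)

lemma exists_IsRep {F : ℂ → ℂ} (hF : Good F) : ∃ x : HH, IsRep F x := by
  obtain ⟨hF1, M, hM⟩ := hF
  apply exists_rep (gt F) M
  · unfold gt
    have hd : DifferentiableOn ℂ (fun z : ℂ => (s5 : ℂ) / (1 - z)) (Metric.ball 0 1) := by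
      apply DifferentiableOn.div (by fun_prop) (by fun_prop)
      intro z hz
      exact one_sub_ne (by simpa using hz)
    apply DifferentiableOn.mul hd
    apply DifferentiableOn.comp (t := PP) hF1
    · exact hd.sub_const _
    · intro z hz
      exact disc_to_PP (by simpa using hz)
  · intro z hz
    have h1 := hM _ (disc_to_PP hz)
    rw [sub_add_cancel] at h1
    exact h1

lemma IsRep_comb {f g : ℂ → ℂ} {x y : HH} (hx : IsRep f x) (hy : IsRep g y) (a b : ℂ) :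
    IsRep (fun z => a * f z + b * g z) (a • x + b • y) := by
  refine ⟨InK_add (InK_smul a hx.1) (InK_smul b hy.1), ?_⟩
  intro z hz
  have h1 := (hx.2 z hz).mul_left a
  have h2 := (hy.2 z hz).mul_left b
  have h3 := h1.add h2
  have e : gt (fun z => a * f z + b * g z) z = a * gt f z + b * gt g z := by
    unfold gt; ring
  rw [e]
  refine h3.congr_fun ?_ |> fun h => h
  intro j
  rw [inner_add_right, inner_smul_right, inner_smul_right]
  ring

lemma IsRep_zero {f : ℂ → ℂ} (h : IsRep f 0) {x : ℂ} (hx : x ∈ PP) : f x = 0 := by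
  have h1 := h.2 _ (PP_to_disc hx)
  simp only [inner_zero_right, mul_zero] at h1
  have h2 := h1.unique hasSum_zero
  rw [gt_at hx] at h2
  rcases mul_eq_zero.mp h2 with h3 | h3
  · exact absurd h3 (ph_add_ne hx)
  · exact h3

lemma IsRep_of_zero {f : ℂ → ℂ} {x : HH} (h : IsRep f x) (hf : ∀ y ∈ PP, f y = 0) : x = 0 := by
  have h1 : ∀ j, ⟪lam j, x⟫_ℂ = 0 := by
    apply ps_zero _ ‖x‖ (fun j => norm_inner_lam_le j x)
    intro w hw
    have hw' : ‖(w : ℂ)‖ < 1 := by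
      rw [Complex.norm_real, Real.norm_eq_abs]; exact hw
    have h2 := h.2 w hw'
    have h3 : gt f w = 0 := by
      unfold gt
      rw [hf _ (disc_to_PP hw'), mul_zero]
    rwa [h3] at h2
  have h2 := h.1 x h1
  exact inner_self_eq_zero.mp h2

lemma IsRep_congr {f g : ℂ → ℂ} {x : HH} (h : IsRep f x) (hf : ∀ y ∈ PP, f y = g y) :
    IsRep g x := by
  refine ⟨h.1, ?_⟩
  intro z hz
  have h1 := h.2 z hz
  have e : gt f z = gt g z := by
    unfold gt
    rw [hf _ (disc_to_PP hz)]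
  rwa [e] at h1

/-! ### the relation between the coefficients -/

lemma norm_TT_le' (j : ℕ) (y : HH) : rr ^ (j + 1) * ‖TT j y‖ ≤ ‖y‖ := by
  have h1 := norm_TT_le j y
  have h2 := norm_Lam_sq j
  have h3 : ‖Lam j‖ ≤ (j : ℝ) + 1 := by
    have : (0 : ℝ) ≤ j := Nat.cast_nonneg j
    have h4 := norm_nonneg (Lam j)
    by_contra hcon
    push Not at hcon
    nlinarith
  have h4 : rr ^ (j + 1) * ((j : ℝ) + 1) ≤ 1 := by
    have h5 : ((j : ℝ) + 1) ≤ 2 ^ (j + 1) := by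
      have : j + 1 < 2 ^ (j + 1) := Nat.lt_two_pow_self
      exact_mod_cast this.le
    have h6 : (rr * 2) ^ (j + 1) ≤ 1 := pow_le_one₀ (by linarith [rr_pos]) (by linarith [rr_ub])
    rw [mul_pow] at h6
    have h7 : 0 ≤ rr ^ (j + 1) := pow_nonneg rr_pos.le _
    calc rr ^ (j + 1) * ((j : ℝ) + 1) ≤ rr ^ (j + 1) * 2 ^ (j + 1) :=
          mul_le_mul_of_nonneg_left h5 h7
      _ ≤ 1 := h6
  have h7 : 0 ≤ rr ^ (j + 1) := pow_nonneg rr_pos.le _
  have hy := norm_nonneg y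
  calc rr ^ (j + 1) * ‖TT j y‖ ≤ rr ^ (j + 1) * (((j : ℝ) + 1) * ‖y‖) := by
        apply mul_le_mul_of_nonneg_left _ h7
        exact h1.trans (mul_le_mul_of_nonneg_right h3 hy)
    _ = (rr ^ (j + 1) * ((j : ℝ) + 1)) * ‖y‖ := by ring
    _ ≤ 1 * ‖y‖ := mul_le_mul_of_nonneg_right h4 hy
    _ = ‖y‖ := one_mul _

lemma TT_diff (j : ℕ) (y : HH) :
    TT j y - (if j = 0 then 0 else TT (j - 1) y) = ⟪lam j, y⟫_ℂ := by
  unfold TT
  cases j with
  | zero => simp [Lam_zero]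
  | succ j =>
    simp only [Nat.add_eq_zero_iff, one_ne_zero, and_false, if_false, Nat.add_sub_cancel]
    rw [Lam_succ, inner_add_left, add_sub_cancel_left]

theorem rep_K {h F : ℂ → ℂ} {y0 x0 : HH} (hh : IsRep h y0) (hF : IsRep F x0)
    (hR : ∀ y : ℝ, -(1 / 2) < y →
      F (y : ℂ) - F ((y : ℂ) + 1) = (((y : ℂ) + 1) ^ 2)⁻¹ * h (1 / ((y : ℂ) + 1))) (m : ℕ) :
    ⟪Lam m, mulOp e1B x0⟫_ℂ = (qq m : ℂ) * TT m y0 := by
  set a : ℕ → ℂ := fun j => (qq j : ℂ) * TT j y0 with ha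
  have hbda : ∀ j, ‖a j‖ ≤ ‖y0‖ := by
    intro j
    rw [ha]
    simp only
    rw [norm_mul, Complex.norm_real, Real.norm_eq_abs, abs_qq]
    exact norm_TT_le' j y0
  set d : ℕ → ℂ := fun j => ⟪lam j, mulOp e1B x0⟫_ℂ - (a j - (if j = 0 then 0 else a (j - 1)))
    with hd
  have hbdd : ∀ j, ‖d j‖ ≤ ‖mulOp e1B x0‖ + (‖y0‖ + ‖y0‖) := by
    intro j
    rw [hd]
    simp only
    refine (norm_sub_le _ _).trans (add_le_add (norm_inner_lam_le j _) ?_)
    refine (norm_sub_le _ _).trans (add_le_add (hbda j) ?_)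
    by_cases h0 : j = 0
    · rw [if_pos h0, norm_zero]; exact norm_nonneg _
    · rw [if_neg h0]; exact hbda _
  have hsum : ∀ w : ℝ, |w| < 1 → HasSum (fun j : ℕ => (w : ℂ) ^ j * d j) 0 := by
    intro w hw
    obtain ⟨hw1, hw2⟩ := abs_lt.mp hw
    have hwn : ‖(w : ℂ)‖ < 1 := by rw [Complex.norm_real, Real.norm_eq_abs]; exact hw
    set p : ℝ := 1 / (1 - w) with hp
    have h1w : 0 < 1 - w := by linarith
    have hp2 : 1 / 2 < p := by
      rw [hp, div_lt_div_iff₀ (by norm_num) h1w]; linarith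
    have hp0 : 0 < p := by linarith
    have hwp : 1 - 1 / p = w := by rw [hp]; simp
    have hcc := cc_pos
    have hp2' : 1 / 2 < p + cc := by linarith
    have hpc0 : 0 < p + cc := by linarith
    set y : ℝ := s5 * p - ph with hy
    have hy2 : -(1 / 2) < y := by
      rw [hy]; unfold ph
      nlinarith [s5_pos]
    have h5 : (s5 : ℂ) ≠ 0 := by exact_mod_cast s5_pos.ne'
    have h5c : s5 * cc = 1 := mul_inv_cancel₀ s5_pos.ne'
    -- values of F
    have hF1 : ⟪Psi p hp2, x0⟫_ℂ = (s5 : ℂ) * p * F y := by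
      have e1 := hasSum_Psi p hp2 x0
      rw [hwp] at e1
      have e2 := hF.2 w hwn
      rw [e1.unique e2]
      unfold gt
      have e3 : (s5 : ℂ) / (1 - (w : ℂ)) = (s5 : ℂ) * p := by
        rw [hp]; push_cast; ring
      rw [e3]
      congr 2
      rw [hy]; push_cast; ring
    have hF2 : ⟪Psi (p + cc) hp2', x0⟫_ℂ = (s5 : ℂ) * (p + cc) * F ((y : ℂ) + 1) := by
      have e1 := hasSum_Psi (p + cc) hp2' x0
      have hw' : ‖((1 - 1 / (p + cc) : ℝ) : ℂ)‖ < 1 := by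
        rw [Complex.norm_real, Real.norm_eq_abs]; exact abs_w_lt _ hp2'
      have e2 := hF.2 _ hw'
      rw [e1.unique e2]
      unfold gt
      have e3 : (s5 : ℂ) / (1 - ((1 - 1 / (p + cc) : ℝ) : ℂ)) = (s5 : ℂ) * (p + cc) := by
        push_cast
        rw [sub_sub_cancel, div_div_eq_mul_div, div_one]
      rw [e3]
      congr 2
      have h5c' : (s5 : ℂ) * (cc : ℂ) = 1 := by exact_mod_cast h5c
      rw [hy]; push_cast
      linear_combination h5c'
    have hleft := hasSum_Psi p hp2 (mulOp e1B x0)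
    rw [hwp, inner_Psi_e1 p hp2 hp2' x0, hF1, hF2] at hleft
    have e4 : (s5 : ℂ) * p * F y - ((p / (p + cc) : ℝ) : ℂ) *
        ((s5 : ℂ) * (p + cc) * F ((y : ℂ) + 1)) =
        (s5 : ℂ) * p * ((((y : ℂ) + 1) ^ 2)⁻¹ * h (1 / ((y : ℂ) + 1))) := by
      rw [← hR y hy2]
      have hpc : ((p : ℂ) + (cc : ℂ)) ≠ 0 := by exact_mod_cast hpc0.ne'
      push_cast
      field_simp
    rw [e4] at hleft
    -- the other side
    set w1 : ℝ := -(rr * w) with hw1def
    have hw1abs : |w1| < 1 := by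
      rw [hw1def, abs_neg, abs_mul, abs_of_pos rr_pos]
      have := rr_lt_one
      have := rr_pos
      have := abs_nonneg w
      nlinarith
    have hw1n : ‖(w1 : ℂ)‖ < 1 := by rw [Complex.norm_real, Real.norm_eq_abs]; exact hw1abs
    have hsT : Summable (fun j : ℕ => (w1 : ℂ) ^ j * TT j y0) := by
      apply Summable.of_norm_bounded (g := fun j : ℕ => |w| ^ j * (rr⁻¹ * ‖y0‖))
      · exact (summable_geometric_of_lt_one (abs_nonneg _) hw).mul_right _
      · intro j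
        rw [norm_mul, norm_pow, Complex.norm_real, Real.norm_eq_abs, hw1def, abs_neg, abs_mul,
          abs_of_pos rr_pos, mul_pow]
        have h6 := norm_TT_le' j y0
        have h7 : rr ^ j * ‖TT j y0‖ ≤ rr⁻¹ * ‖y0‖ := by
          rw [pow_succ] at h6
          have h8 := mul_le_mul_of_nonneg_left h6 (inv_nonneg.mpr rr_pos.le)
          have h9 : rr⁻¹ * (rr ^ j * rr * ‖TT j y0‖) = rr ^ j * ‖TT j y0‖ := by
            have := rr_pos.ne'
            field_simp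
          rwa [h9] at h8
        calc rr ^ j * |w| ^ j * ‖TT j y0‖ = |w| ^ j * (rr ^ j * ‖TT j y0‖) := by ring
          _ ≤ |w| ^ j * (rr⁻¹ * ‖y0‖) := mul_le_mul_of_nonneg_left h7 (by positivity)
    obtain ⟨A, hA⟩ := hsT
    have hA2 := hasSum_diff (fun j => TT j y0) (w1 : ℂ) A hA
    simp only [TT_diff] at hA2
    have hA3 : (1 - (w1 : ℂ)) * A = gt h w1 := hA2.unique (hh.2 _ hw1n)
    have hB : HasSum (fun j : ℕ => (w : ℂ) ^ j * a j) ((rr : ℂ) * A) := by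
      have := hA.mul_left (rr : ℂ)
      refine this.congr_fun ?_ |> fun h => h
      intro j
      rw [ha, hw1def]
      simp only
      unfold qq
      push_cast
      rw [neg_pow ((rr : ℂ) * (w : ℂ)) j, mul_pow]
      ring
    have hB2 := hasSum_diff a (w : ℂ) _ hB
    have hfin := hleft.sub hB2
    have e5 : (s5 : ℂ) * p * ((((y : ℂ) + 1) ^ 2)⁻¹ * h (1 / ((y : ℂ) + 1))) -
        (1 - (w : ℂ)) * ((rr : ℂ) * A) = 0 := by
      have h1w1 : (1 - (w1 : ℂ)) ≠ 0 := one_sub_ne hw1n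
      have hA4 : A = gt h w1 / (1 - (w1 : ℂ)) := by
        rw [eq_div_iff h1w1, mul_comm]; exact hA3
      have hphi : (ph - 1) * (y + 1) = (1 - w1) * p := by
        have e6 : w = 1 - 1 / p := hwp.symm
        have hsq := s5_sq
        rw [hw1def, e6, hy]
        unfold ph rr
        field_simp
        ring_nf
        rw [hsq]
        ring
      have hphi2 : ph * (ph - 1) = 1 := by
        unfold ph
        nlinarith [s5_sq]
      have hphi3 : (ph - 1) ^ 2 = rr := by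
        unfold ph rr
        nlinarith [s5_sq]
      have hy1 : (0 : ℝ) < y + 1 := by linarith
      have hph1 : (0 : ℝ) < ph - 1 := by unfold ph; linarith [s5_lb]
      have h1w1r : (0 : ℝ) < 1 - w1 := by
        have := (abs_lt.mp hw1abs).2
        linarith
      have e7 : s5 / (1 - w1) = ph + 1 / (y + 1) := by
        rw [div_eq_iff h1w1r.ne']
        have e8 : 1 - w1 = (ph - 1) * (y + 1) / p := by
          rw [hphi]; field_simp
        rw [e8]
        have e9 : (ph + 1 / (y + 1)) * ((ph - 1) * (y + 1) / p) =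
            (ph * (ph - 1) * (y + 1) + (ph - 1)) / p := by
          field_simp
        rw [e9, hphi2, hy, eq_div_iff hp0.ne']
        ring
      have e7c : (s5 : ℂ) / (1 - (w1 : ℂ)) = (ph : ℂ) + 1 / ((y : ℂ) + 1) := by
        exact_mod_cast congrArg (fun t : ℝ => (t : ℂ)) e7
      have e10 : gt h w1 = (s5 : ℂ) / (1 - (w1 : ℂ)) * h (1 / ((y : ℂ) + 1)) := by
        unfold gt
        congr 2
        rw [e7c]; ring
      have e11 : s5 * p * ((y + 1) ^ 2)⁻¹ = (1 - w) * rr * (s5 / (1 - w1) / (1 - w1)) := by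
        have e12 : 1 - w = 1 / p := by rw [← hwp]; ring
        have e8 : 1 - w1 = (ph - 1) * (y + 1) / p := by
          rw [hphi]; field_simp
        rw [e12, e8, ← hphi3]
        field_simp
      have e11c : (s5 : ℂ) * (p : ℂ) * ((((y : ℂ) + 1) ^ 2)⁻¹) =
          (1 - (w : ℂ)) * (rr : ℂ) * ((s5 : ℂ) / (1 - (w1 : ℂ)) / (1 - (w1 : ℂ))) := by
        exact_mod_cast congrArg (fun t : ℝ => (t : ℂ)) e11
      rw [hA4, e10, ← mul_assoc, e11c]
      field_simp
      ring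
    rw [e5] at hfin
    refine hfin.congr_fun ?_ |> fun h => h
    intro j
    rw [hd]
    simp only
    ring
  have hzero := ps_zero d _ hbdd hsum
  -- sum up
  induction m with
  | zero =>
    have h0 := hzero 0
    rw [hd] at h0
    simp only [if_true, sub_zero] at h0
    rw [Lam_zero]
    exact sub_eq_zero.mp h0
  | succ m ih =>
    have h0 := hzero (m + 1)
    rw [hd] at h0
    simp only [Nat.add_eq_zero_iff, one_ne_zero, and_false, if_false, Nat.add_sub_cancel] at h0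
    rw [Lam_succ, inner_add_left, ih]
    have : a m = (qq m : ℂ) * TT m y0 := rfl
    have h2 : a (m + 1) = (qq (m + 1) : ℂ) * TT (m + 1) y0 := rfl
    rw [← this, ← h2]
    linear_combination h0

end Pool.Agent.GKW
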